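import Pool.Agent.Helper53.Slit.Final
import Pool.Agent.Helper72.Slit.Trunc

/-!
Cardy's formula for the slit strip, truncated at finite height.
-/

set_option autoImplicit false

namespace H47Perc.SL
open Finset Filter Topology SimpleGraph H47Perc.DS

/-- exact value up to an exponentially small error in the height -/
theorem pSlit_bound (H : TriUrn) : ∃ c : ℝ, 0 < c ∧ ∃ C : ℝ, 0 < C ∧ ∀ L i M : ℕ, Odd L → Odd i →
    i < L → |pSlit L i M - Slit.urn L i| ≤ C * Real.exp (-(c * (M / L))) := by
  obtain ⟨c, hc, C, hC, h⟩ := pSlit_trunc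
  refine ⟨c, hc, C * Real.exp c, by positivity, fun L i M hL hi hiL => ?_⟩
  have hL0 : 0 < L := by omega
  have hlim := pSlit_lim H hL hi hiL
  have h1 : pSlit L i M ≤ Slit.urn L i := (pSlit_mono' L i).ge_of_tendsto hlim M
  set K : ℕ := M / L with hK
  have hKM : K * L ≤ M := Nat.div_mul_le_self M L
  have h2 : pSlit L i (K * L : ℕ) ≤ pSlit L i M := pSlit_mono' L i hKM
  have h3 : Slit.urn L i - pSlit L i (K * L : ℕ) ≤ C * Real.exp (-(c * K)) := by
    refine le_of_tendsto (hlim.sub_const _) ?_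
    filter_upwards [eventually_ge_atTop (K * L)] with M' hM'
    have := h (L : ℤ) (i : ℤ) (by exact_mod_cast hL0) (by exact_mod_cast hiL) K M' (by exact_mod_cast hM')
    push_cast
    exact this
  have h4 : Real.exp (-(c * K)) ≤ Real.exp c * Real.exp (-(c * (M / L))) := by
    rw [← Real.exp_add]
    apply Real.exp_le_exp.2
    have h5 : (M : ℝ) / L ≤ K + 1 := by
      rw [div_le_iff₀ (by exact_mod_cast hL0)]
      have h6 : M < (K + 1) * L := by
        rw [hK]
        exact Nat.lt_mul_of_div_lt (Nat.lt_succ_self _) hL0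
      exact_mod_cast h6.le
    nlinarith
  rw [abs_sub_comm, abs_of_nonneg (by linarith)]
  calc Slit.urn L i - pSlit L i M ≤ Slit.urn L i - pSlit L i (K * L : ℕ) := by linarith
    _ ≤ C * Real.exp (-(c * K)) := h3
    _ ≤ C * (Real.exp c * Real.exp (-(c * (M / L)))) := by gcongr
    _ = _ := by ring

/-- **Cardy's formula for slit strips.** -/
theorem pSlit_cardy (H : TriUrn) {L i M : ℕ → ℕ} {a : ℝ} (hL : ∀ m, Odd (L m))
    (hi : ∀ m, Odd (i m)) (h : ∀ m, i m < L m) (hlim : Tendsto L atTop atTop)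
    (ha : Tendsto (fun m => (i m : ℝ) / L m) atTop (𝓝 a))
    (hM : Tendsto (fun m => (M m : ℝ) / L m) atTop atTop) :
    Tendsto (fun m => pSlit (L m) (i m) (M m)) atTop (𝓝 (Slit.cardy a)) := by
  obtain ⟨c, hc, C, hC, hb⟩ := pSlit_bound H
  have h1 := Slit.urn_lim hlim (fun m => (h m).le) ha
  have h2 : Tendsto (fun m => pSlit (L m) (i m) (M m) - Slit.urn (L m) (i m)) atTop (𝓝 0) := by
    apply squeeze_zero_norm (a := fun m => C * Real.exp (-(c * (M m / L m))))
    · intro m
      exact hb (L m) (i m) (M m) (hL m) (hi m) (h m)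
    · have h3 : Tendsto (fun m => c * ((M m : ℝ) / L m)) atTop atTop := hM.const_mul_atTop hc
      have h4 := (Real.tendsto_exp_neg_atTop_nhds_zero.comp h3).const_mul C
      rw [mul_zero] at h4
      exact h4
  have h5 := h2.add h1
  rw [zero_add] at h5
  refine h5.congr fun m => ?_
  ring

end H47Perc.SL
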