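import Pool.Agent.Helper53.Slit.OneArm
import Pool.Agent.Helper53.Slit.FinalB

/-!
The slit strip: comparison of the crossing probabilities for neighbouring parameters; Cardy's formula
without parity conditions.
-/

set_option autoImplicit false

namespace H47Perc.SL
open Finset Filter Topology SimpleGraph H47Perc H47Perc.DS
open Pool.Agent.Helper69.RSW (Up P_restrict P_congr P_mono Dep P P_compl P_indep
  P_nonneg P_le_one P_or_le P_true P_add_of_disjoint harris perc_half_eq)

lemma slitE_sub (L i M : ℤ) : slitE L i M ⊆ edgesIn (dstrip L M) := by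
  classical
  exact filter_subset _ _

lemma mem_slitE {L i M : ℤ} {e : Sym2 (ℤ × ℤ)} :
    e ∈ slitE L i M ↔ e ∈ edgesIn (dstrip L M) ∧ ¬ Cut i e := by
  classical
  unfold slitE
  rw [mem_filter]

lemma slitE_mono_L {L L' i M : ℤ} (h : L ≤ L') : slitE L i M ⊆ slitE L' i M := by
  intro e he
  rw [mem_slitE] at he ⊢
  refine ⟨edgesIn_mono ?_ he.1, he.2⟩
  intro z hz
  rw [mem_dstrip] at hz ⊢
  exact ⟨hz.1, hz.2.1.trans h, hz.2.2⟩

lemma cr_up (L i : ℤ) : Up (Cr L i) := fun _ _ h hc => cr_mono h hc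

/-- the crossing of the wider strip contains a crossing of the narrower one -/
lemma cr_succ {L i M : ℤ} (hi : i < L) {ω : Finset (Sym2 (ℤ × ℤ))} (hω : ω ⊆ slitE (L + 1) i M)
    (h : Cr (L + 1) i ω) : Cr L i (ω ∩ slitE L i M) := by
  classical
  obtain ⟨z, z', h1, h2, h3, h4⟩ := h
  have hω' : ω ⊆ edgesIn (dstrip (L + 1) M) := hω.trans (slitE_sub _ _ _)
  have hzz : z ≠ z' := by
    rintro rfl
    omega
  have hz : z ∈ dstrip (L + 1) M := mem_of_joined_ne hω' h4 hzz
  have hzT : z ∈ dstrip (L - 1) M := by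
    rw [mem_dstrip] at hz ⊢
    exact ⟨hz.1, by omega, hz.2.2⟩
  have hz'T : z' ∉ dstrip (L - 1) M := by
    rw [mem_dstrip]
    rintro ⟨_, h5, _⟩
    omega
  obtain ⟨w, w', w1, w2, w3, w4, w5, w6⟩ := joined_exit hω' h4 hzT hz'T
  rw [mem_dstrip] at w1 w2 w3
  have h6 := adj_sum w4
  have h7 : w'.1 + w'.2 = L := by
    by_contra hne
    apply w2
    exact ⟨w3.1, by omega, w3.2.2⟩
  refine ⟨z, w', h1, h2, h7, joined_trans (joined_mono ?_ w6) (joined_edge ?_)⟩
  · intro e he
    rw [mem_inter] at he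
    rw [mem_inter, mem_slitE]
    refine ⟨he.1, edgesIn_mono ?_ he.2, (mem_slitE.1 (hω he.1)).2⟩
    intro v hv
    rw [mem_dstrip] at hv ⊢
    exact ⟨hv.1, by omega, hv.2.2⟩
  · rw [mem_inter, mem_slitE, mem_edgesIn, mem_dstrip, mem_dstrip]
    exact ⟨w5, ⟨⟨w1.1, by omega, w1.2.2⟩, ⟨w3.1, h7.le, w3.2.2⟩, w4⟩, (mem_slitE.1 (hω w5)).2⟩

/-- the crossing probability decreases in the width -/
theorem pSlit_succ {L i M : ℤ} (hi : i < L) : pSlit (L + 1) i M ≤ pSlit L i M := by
  classical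
  have hsub : slitE L i M ⊆ slitE (L + 1) i M := slitE_mono_L (by omega)
  have hD : Dep (slitE L i M) (fun ω : Finset (Sym2 (ℤ × ℤ)) => Cr L i (ω ∩ slitE L i M)) := by
    intro S
    simp only
    rw [inter_assoc, inter_self]
  unfold pSlit
  refine (P_mono fun S hS hc => cr_succ hi hS hc).trans (le_of_eq ?_)
  refine (P_restrict hsub hD).trans ?_
  apply P_congr
  intro S hS
  rw [inter_eq_left.2 hS]

/-- the tip of the slit is joined to the right wall -/
def Tip (L i : ℤ) (ω : Finset (Sym2 (ℤ × ℤ))) : Prop :=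
  ∃ t z' : ℤ × ℤ, t.1 + t.2 = i + 1 ∧ t.1 - t.2 = 1 ∧ z'.1 + z'.2 = L ∧ Joined ω t z'

/-- moving the slit to the left -/
lemma cr_shift {L i M : ℤ} (hi : i + 1 < L) {ω : Finset (Sym2 (ℤ × ℤ))}
    (hω : ω ⊆ slitE L (i + 1) M) (h : Cr L (i + 1) ω) :
    Cr L i (ω ∩ slitE L i M) ∨ Tip L i ω := by
  classical
  obtain ⟨z, z', h1, h2, h3, h4⟩ := h
  have hω' : ω ⊆ edgesIn (dstrip L M) := hω.trans (slitE_sub _ _ _)
  have hzz : z' ≠ z := by
    rintro rfl
    omega
  have hz : z' ∈ dstrip L M := mem_of_joined_ne hω' (joined_symm h4) hzz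
  set T : Finset (ℤ × ℤ) := (dstrip L M).filter (fun v => ¬ (v.1 + v.2 = i + 1 ∧ 1 ≤ v.1 - v.2)) with hT
  have hzT : z ∉ T := by
    rw [hT, mem_filter]
    rintro ⟨_, h5⟩
    exact h5 ⟨h1, h2⟩
  have hz'T : z' ∈ T := by
    rw [hT, mem_filter]
    exact ⟨hz, fun h5 => by omega⟩
  obtain ⟨w, w', w1, w2, w3, w4, w5, w6⟩ := joined_exit hω' (joined_symm h4) hz'T hzT
  rw [hT, mem_filter] at w1
  have g1 : w'.1 + w'.2 = i + 1 ∧ 1 ≤ w'.1 - w'.2 := by
    by_contra hc
    exact w2 (by rw [hT, mem_filter]; exact ⟨w3, hc⟩)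
  have g2 := adj_sum w4
  have g3 := adj_level w4
  have g4 := (mem_slitE.1 (hω w5)).2
  rw [cut_mk] at g4
  have hsub : ω ∩ edgesIn T ⊆ ω ∩ slitE L i M := by
    intro e he
    rw [mem_inter] at he
    rw [mem_inter, mem_slitE]
    refine ⟨he.1, edgesIn_mono (filter_subset _ _) he.2, ?_⟩
    rintro ⟨u, v, rfl, k1, k2, k3, k4⟩
    have k5 := mem_edgesIn.1 he.2
    rw [hT, mem_filter, mem_filter] at k5
    exact k5.2.1.2 ⟨k2, k4⟩
  by_cases hc : w.1 + w.2 = i ∧ 1 ≤ w.1 - w.2
  · left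
    exact ⟨w, z', hc.1, hc.2, h3, joined_mono hsub (joined_symm w6)⟩
  · right
    refine ⟨w', z', g1.1, by omega, h3, joined_trans (v := w) (joined_symm (joined_edge w5)) ?_⟩
    exact joined_mono inter_subset_left (joined_symm w6)

/-- for odd `i` the tip vertex does not exist -/
lemma not_tip {L i : ℤ} (hi : Odd i) (ω : Finset (Sym2 (ℤ × ℤ))) : ¬ Tip L i ω := by
  rintro ⟨t, z', h1, h2, _, _⟩
  obtain ⟨k, rfl⟩ := hi
  omega

lemma pSlit_restrict {L i i' M : ℤ} :
    P (slitE L i' M) (fun ω => Cr L i (ω ∩ slitE L i M)) ≤ pSlit L i M := by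
  classical
  have hD : Dep (slitE L i M) (fun ω : Finset (Sym2 (ℤ × ℤ)) => Cr L i (ω ∩ slitE L i M)) := by
    intro S
    simp only
    rw [inter_assoc, inter_self]
  have hUp : Up (fun ω : Finset (Sym2 (ℤ × ℤ)) => Cr L i (ω ∩ slitE L i M)) :=
    fun _ _ h hc => cr_mono (inter_subset_inter_right h) hc
  refine (P_enlarge (slitE_sub L i' M) hUp).trans (le_of_eq ?_)
  refine (P_restrict (slitE_sub L i M) hD).trans ?_
  unfold pSlit
  apply P_congr
  intro S hS
  rw [inter_eq_left.2 hS]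

/-- the probability of an arm from the tip -/
lemma P_tip {L i M : ℤ} {n : ℕ} (h : 2 * (n : ℤ) ≤ L - i - 1) :
    P (slitE L (i + 1) M) (Tip L i) ≤ pi1 n := by
  classical
  by_cases hpar : Odd i
  · refine le_trans (le_of_eq ?_) (pi1_nonneg n)
    have : P (slitE L (i + 1) M) (Tip L i) = P (slitE L (i + 1) M) (fun _ => False) :=
      P_congr fun S _ => by simp only [iff_false]; exact not_tip hpar S
    rw [this]
    unfold P
    simp
  · rw [Int.not_odd_iff_even] at hpar
    obtain ⟨k, rfl⟩ := hpar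
    set t : ℤ × ℤ := (k + 1, k) with ht
    have hUp : Up (Tip L (k + k)) := by
      rintro ω ω' h' ⟨t, z', h1, h2, h3, h4⟩
      exact ⟨t, z', h1, h2, h3, joined_mono h' h4⟩
    refine (P_enlarge (slitE_sub L _ M) hUp).trans ?_
    have h1 : P (edgesIn (dstrip L M)) (Tip L (k + k)) ≤ armP (dstrip L M) t n := by
      unfold armP
      rw [perc_half_eq]
      apply P_mono
      rintro S hS ⟨t', z', h1, h2, h3, h4⟩
      have h5 : t' = t := Prod.ext (by simp only [ht]; omega) (by simp only [ht]; omega)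
      subst h5
      rw [← inter_eq_left.2 hS] at h4
      apply arm_of_joined (by omega) h4
      by_contra hcon
      push Not at hcon
      have e1 := abs_lt.1 hcon.1
      have e2 := abs_lt.1 hcon.2
      omega
    refine h1.trans ?_
    have h2 : armP (dstrip L M) t n ≤ armP ((box (-(n : ℤ)) n (-n) n).map (transl t).toEmbedding) t n := by
      apply armP_mono
      refine inter_subset_right.trans ?_
      intro z hz
      rw [mem_map_equiv, mem_box]
      rw [mem_ball, abs_le, abs_le] at hz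
      have e : (transl t).symm z = (z.1 - t.1, z.2 - t.2) := by
        rw [Equiv.symm_apply_eq]
        refine Prod.ext ?_ ?_ <;> simp [transl]
      rw [e]
      simp only
      omega
    refine h2.trans (le_of_eq ?_)
    have h3 := armP_map (transl_sym t) (box (-(n : ℤ)) n (-n) n) (0, 0) n
    have h4 : transl t (0, 0) = t := by simp [transl]
    rw [h4] at h3
    exact h3

/-- moving the slit to the left by one line -/
theorem pSlit_shift {L i M : ℤ} (hi : i + 1 < L) {n : ℕ} (h : 2 * (n : ℤ) ≤ L - i - 1) :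
    pSlit L (i + 1) M ≤ pSlit L i M + pi1 n := by
  classical
  calc pSlit L (i + 1) M ≤ P (slitE L (i + 1) M)
        (fun ω => Cr L i (ω ∩ slitE L i M) ∨ Tip L i ω) := by
        unfold pSlit
        exact P_mono fun S hS hc => cr_shift hi hS hc
    _ ≤ _ := P_or_le _ _ _
    _ ≤ _ := add_le_add pSlit_restrict (P_tip h)

/-- moving the slit to the left by one line, odd position -/
theorem pSlit_shift_odd {L i M : ℤ} (hi : i + 1 < L) (hodd : Odd i) :
    pSlit L (i + 1) M ≤ pSlit L i M := by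
  classical
  refine le_trans ?_ (pSlit_restrict (i' := i + 1))
  unfold pSlit
  apply P_mono
  intro S hS hc
  rcases cr_shift hi hS hc with h | h
  · exact h
  · exact absurd h (not_tip hodd S)

end H47Perc.SL
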