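import Pool.Agent.Helper53.Slit.Parity

/-!
Cardy's formula for slit strips, without parity conditions.
-/

set_option autoImplicit false

namespace H47Perc.SL
open Finset Filter Topology SimpleGraph H47Perc H47Perc.DS

/-- largest odd number `≤ x` -/
def lo (x : ℕ) : ℕ := 2 * ((x - 1) / 2) + 1
/-- smallest odd number `≥ x` -/
def up (x : ℕ) : ℕ := 2 * (x / 2) + 1

lemma lo_odd (x : ℕ) : Odd (lo x) := ⟨(x - 1) / 2, rfl⟩
lemma up_odd (x : ℕ) : Odd (up x) := ⟨x / 2, rfl⟩

lemma pSlit_le_lo {L i M : ℕ} (hi : 1 ≤ i) (h : i + 3 ≤ L) :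
    pSlit L i M ≤ pSlit (lo L) (lo i) M := by
  have h1 : pSlit L i M ≤ pSlit (lo L) i M := by
    rcases Nat.even_or_odd L with hL | hL
    · obtain ⟨k, rfl⟩ := hL
      have e : ((lo (k + k) : ℕ) : ℤ) + 1 = ((k + k : ℕ) : ℤ) := by
        unfold lo
        omega
      rw [← e]
      exact pSlit_succ (by unfold lo; omega)
    · obtain ⟨k, rfl⟩ := hL
      have e : lo (2 * k + 1) = 2 * k + 1 := by
        unfold lo
        omega
      rw [e]
  refine h1.trans ?_
  rcases Nat.even_or_odd i with hk | hk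
  · obtain ⟨k, rfl⟩ := hk
    have e : ((lo (k + k) : ℕ) : ℤ) + 1 = ((k + k : ℕ) : ℤ) := by
      unfold lo
      omega
    rw [← e]
    apply pSlit_shift_odd
    · unfold lo
      omega
    · exact_mod_cast lo_odd _
  · obtain ⟨k, rfl⟩ := hk
    have e : lo (2 * k + 1) = 2 * k + 1 := by
      unfold lo
      omega
    rw [e]

lemma pSlit_ge_up {L i M n : ℕ} (h : i + 3 ≤ L) (hn : 2 * n + i + 1 ≤ L) :
    pSlit (up L) (up i) M ≤ pSlit L i M + pi1 n := by
  have h2 : pSlit (up L) i M ≤ pSlit L i M := by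
    rcases Nat.even_or_odd L with hL | hL
    · obtain ⟨k, rfl⟩ := hL
      have e : ((up (k + k) : ℕ) : ℤ) = ((k + k : ℕ) : ℤ) + 1 := by
        unfold up
        omega
      rw [e]
      exact pSlit_succ (by omega)
    · obtain ⟨k, rfl⟩ := hL
      have e : up (2 * k + 1) = 2 * k + 1 := by
        unfold up
        omega
      rw [e]
  have h1 : pSlit (up L) (up i) M ≤ pSlit (up L) i M + pi1 n := by
    rcases Nat.even_or_odd i with hk | hk
    · obtain ⟨k, rfl⟩ := hk
      have e : ((up (k + k) : ℕ) : ℤ) = ((k + k : ℕ) : ℤ) + 1 := by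
        unfold up
        omega
      rw [e]
      apply pSlit_shift
      · unfold up
        omega
      · unfold up
        omega
    · obtain ⟨k, rfl⟩ := hk
      have e : up (2 * k + 1) = 2 * k + 1 := by
        unfold up
        omega
      rw [e]
      have := pi1_nonneg n
      linarith
  linarith

lemma nat_eq_mul {x : ℕ} (h : x ≠ 0) (y : ℝ) : y = y / x * x := by
  have : (x : ℝ) ≠ 0 := by exact_mod_cast h
  field_simp

/-- changing `i` and `L` by at most one does not change the limits -/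
lemma ratio_tendsto {L i L' i' : ℕ → ℕ} {a : ℝ} (hlim : Tendsto L atTop atTop)
    (ha : Tendsto (fun m => (i m : ℝ) / L m) atTop (𝓝 a)) (h1 : ∀ m, L m ≤ L' m + 1)
    (h2 : ∀ m, L' m ≤ L m + 1) (h3 : ∀ m, i m ≤ i' m + 1) (h4 : ∀ m, i' m ≤ i m + 1) :
    Tendsto (fun m => (i' m : ℝ) / L' m) atTop (𝓝 a) := by
  have hL : Tendsto (fun m => (L m : ℝ)) atTop atTop := tendsto_natCast_atTop_atTop.comp hlim
  have hinv : Tendsto (fun m => (1 : ℝ) / L m) atTop (𝓝 0) := by
    simp only [one_div]
    exact tendsto_inv_atTop_zero.comp hL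
  have e1 : Tendsto (fun m => ((L' m : ℝ) - L m) / L m) atTop (𝓝 0) := by
    apply squeeze_zero_norm (a := fun m => (1 : ℝ) / L m) _ hinv
    intro m
    rw [Real.norm_eq_abs, abs_div, abs_of_nonneg (show (0 : ℝ) ≤ L m by positivity)]
    apply div_le_div_of_nonneg_right _ (by positivity)
    have a1 : (L m : ℝ) ≤ L' m + 1 := by exact_mod_cast h1 m
    have a2 : (L' m : ℝ) ≤ L m + 1 := by exact_mod_cast h2 m
    rw [abs_le]
    constructor <;> linarith
  have e2 : Tendsto (fun m => ((i' m : ℝ) - i m) / L m) atTop (𝓝 0) := by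
    apply squeeze_zero_norm (a := fun m => (1 : ℝ) / L m) _ hinv
    intro m
    rw [Real.norm_eq_abs, abs_div, abs_of_nonneg (show (0 : ℝ) ≤ L m by positivity)]
    apply div_le_div_of_nonneg_right _ (by positivity)
    have a1 : (i m : ℝ) ≤ i' m + 1 := by exact_mod_cast h3 m
    have a2 : (i' m : ℝ) ≤ i m + 1 := by exact_mod_cast h4 m
    rw [abs_le]
    constructor <;> linarith
  have e3 := (ha.add e2).div (e1.const_add 1) (by norm_num)
  rw [add_zero, add_zero, div_one] at e3
  refine e3.congr' ?_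
  filter_upwards [hL.eventually_gt_atTop 2] with m hm
  have a2 : (L m : ℝ) ≤ L' m + 1 := by exact_mod_cast h1 m
  have a3 : (0 : ℝ) < L' m := by linarith
  have a4 : (L m : ℝ) ≠ 0 := by linarith
  have a5 : (L' m : ℝ) ≠ 0 := a3.ne'
  simp only [Pi.div_apply]
  have e4 : (1 : ℝ) + ((L' m : ℝ) - L m) / L m = L' m / L m := by
    field_simp
    ring
  have e5 : (i m : ℝ) / L m + ((i' m : ℝ) - i m) / L m = i' m / L m := by
    field_simp
    ring
  rw [e4, e5]
  field_simp

lemma ratio_tendsto_top {L M L' : ℕ → ℕ} (hM : Tendsto (fun m => (M m : ℝ) / L m) atTop atTop)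
    (hlim : Tendsto L atTop atTop) (h2 : ∀ m, L' m ≤ L m + 1) (h0 : ∀ m, 0 < L' m) :
    Tendsto (fun m => (M m : ℝ) / L' m) atTop atTop := by
  have h3 : Tendsto (fun m => (M m : ℝ) / L m * (1 / 2)) atTop atTop :=
    hM.atTop_mul_const (by norm_num)
  refine tendsto_atTop_mono' _ ?_ h3
  filter_upwards [hlim.eventually_ge_atTop 1] with m hm
  have a1 : (0 : ℝ) < L m := by exact_mod_cast hm
  have a2 : (0 : ℝ) < L' m := by exact_mod_cast h0 m
  have a3 : (L' m : ℝ) ≤ 2 * L m := by
    have : L' m ≤ 2 * L m := by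
      have := h2 m
      omega
    exact_mod_cast this
  rw [div_mul_div_comm, mul_one]
  apply div_le_div_of_nonneg_left (by positivity) a2
  linarith

/-- **Cardy's formula for slit strips**, all parities. -/
theorem pSlit_cardy_all (H : TriUrn) {L i M : ℕ → ℕ} {a : ℝ} (ha0 : 0 < a) (ha1 : a < 1)
    (hlim : Tendsto L atTop atTop) (ha : Tendsto (fun m => (i m : ℝ) / L m) atTop (𝓝 a))
    (hM : Tendsto (fun m => (M m : ℝ) / L m) atTop atTop) :
    Tendsto (fun m => pSlit (L m) (i m) (M m)) atTop (𝓝 (Slit.cardy a)) := by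
  have hL : Tendsto (fun m => (L m : ℝ)) atTop atTop := tendsto_natCast_atTop_atTop.comp hlim
  -- the gap
  have hgap : Tendsto (fun m => (L m : ℝ) - i m) atTop atTop := by
    have h1 : Tendsto (fun m => (1 - (i m : ℝ) / L m) * L m) atTop atTop :=
      Tendsto.pos_mul_atTop (show 0 < 1 - a by linarith) (ha.const_sub 1) hL
    refine h1.congr' ?_
    filter_upwards [hL.eventually_gt_atTop 0] with m hm
    field_simp
  have hi : Tendsto (fun m => (i m : ℝ)) atTop atTop := by
    have h1 : Tendsto (fun m => ((i m : ℝ) / L m) * L m) atTop atTop :=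
      Tendsto.pos_mul_atTop ha0 ha hL
    refine h1.congr' ?_
    filter_upwards [hL.eventually_gt_atTop 0] with m hm
    field_simp
  have hev : ∀ᶠ m in atTop, 1 ≤ i m ∧ i m + 5 ≤ L m := by
    filter_upwards [hgap.eventually_ge_atTop 5, hi.eventually_ge_atTop 1] with m h1 h2
    have h3 : (i m : ℝ) + 5 ≤ L m := by linarith
    exact ⟨by exact_mod_cast h2, by exact_mod_cast h3⟩
  obtain ⟨m0, hm0⟩ := eventually_atTop.1 hev
  -- shift the sequences
  rw [← tendsto_add_atTop_iff_nat m0]
  have sL := (tendsto_add_atTop_iff_nat (f := L) m0).2 hlim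
  have sa := (tendsto_add_atTop_iff_nat (f := fun m => (i m : ℝ) / L m) m0).2 ha
  have sM := (tendsto_add_atTop_iff_nat (f := fun m => (M m : ℝ) / L m) m0).2 hM
  have sg := (tendsto_add_atTop_iff_nat (f := fun m => (L m : ℝ) - i m) m0).2 hgap
  have hc : ∀ m, 1 ≤ i (m + m0) ∧ i (m + m0) + 5 ≤ L (m + m0) := fun m => hm0 _ (by omega)
  have lo1 : ∀ x : ℕ, x ≤ lo x + 1 := fun x => by unfold lo; omega
  have lo2 : ∀ x : ℕ, lo x ≤ x + 1 := fun x => by unfold lo; omega
  have up1 : ∀ x : ℕ, x ≤ up x + 1 := fun x => by unfold up; omega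
  have up2 : ∀ x : ℕ, up x ≤ x + 1 := fun x => by unfold up; omega
  have hloL : Tendsto (fun m => lo (L (m + m0))) atTop atTop := by
    refine tendsto_atTop_mono (f := fun m => L (m + m0) - 1) (fun m => ?_) ?_
    · have := lo1 (L (m + m0))
      omega
    · exact (tendsto_sub_atTop_nat 1).comp sL
  have hupL : Tendsto (fun m => up (L (m + m0))) atTop atTop :=
    tendsto_atTop_mono (f := fun m => L (m + m0)) (fun m => by unfold up; omega) sL
  have lim1 : Tendsto (fun m => pSlit (lo (L (m + m0))) (lo (i (m + m0))) (M (m + m0))) atTop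
      (𝓝 (Slit.cardy a)) := by
    apply pSlit_cardy H (L := fun m => lo (L (m + m0))) (i := fun m => lo (i (m + m0)))
      (M := fun m => M (m + m0)) (fun m => lo_odd _) (fun m => lo_odd _)
    · intro m
      have := hc m
      unfold lo
      omega
    · exact hloL
    · exact ratio_tendsto sL sa (fun m => lo1 _) (fun m => lo2 _) (fun m => lo1 _) (fun m => lo2 _)
    · exact ratio_tendsto_top sM sL (fun m => lo2 _) (fun m => by unfold lo; omega)
  have lim2 : Tendsto (fun m => pSlit (up (L (m + m0))) (up (i (m + m0))) (M (m + m0))) atTop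
      (𝓝 (Slit.cardy a)) := by
    apply pSlit_cardy H (L := fun m => up (L (m + m0))) (i := fun m => up (i (m + m0)))
      (M := fun m => M (m + m0)) (fun m => up_odd _) (fun m => up_odd _)
    · intro m
      have := hc m
      unfold up
      omega
    · exact hupL
    · exact ratio_tendsto sL sa (fun m => up1 _) (fun m => up2 _) (fun m => up1 _) (fun m => up2 _)
    · exact ratio_tendsto_top sM sL (fun m => up2 _) (fun m => by unfold up; omega)
  -- the one-arm error
  set nn : ℕ → ℕ := fun m => (L (m + m0) - i (m + m0) - 1) / 2 with hnn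
  have hn : Tendsto nn atTop atTop := by
    rw [tendsto_atTop]
    intro k
    filter_upwards [sg.eventually_ge_atTop (2 * k + 3)] with m hm
    have h1 : (i (m + m0) : ℝ) + (2 * k + 3) ≤ L (m + m0) := by linarith
    have h2 : i (m + m0) + (2 * k + 3) ≤ L (m + m0) := by exact_mod_cast h1
    simp only [hnn]
    omega
  have herr : Tendsto (fun m => pi1 (nn m)) atTop (𝓝 0) := pi1_tendsto.comp hn
  have lim3 := lim2.sub herr
  rw [sub_zero] at lim3
  refine tendsto_of_tendsto_of_tendsto_of_le_of_le lim3 lim1 (fun m => ?_) (fun m => ?_)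
  · have := pSlit_ge_up (L := L (m + m0)) (i := i (m + m0)) (M := M (m + m0)) (n := nn m)
      (by have := hc m; omega) (by have := hc m; simp only [hnn]; omega)
    simp only
    linarith
  · exact pSlit_le_lo (hc m).1 (by have := hc m; omega)

end H47Perc.SL
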