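import Pool.Agent.Helper53.Slit.TriDefs
import Pool.Agent.Helper8.PercGlue.Hull

/-!
The trilinear form: sums, limits.
-/

namespace IP.Slit
open Finset Filter Topology IP

theorem tri_eq_sum (n1 n2 : ℕ) {v1 v2 v : M} {S1 S2 S : Finset St} (h1 : v1.support ⊆ S1)
    (h2 : v2.support ⊆ S2) (h : v.support ⊆ S) :
    tri n1 n2 v1 v2 v = ∑ t1 ∈ S1, ∑ t2 ∈ S2, ∑ σ ∈ S, v1 t1 * v2 t2 * v σ * cf n1 n2 t1 t2 σ := by
  unfold tri
  rw [Finsupp.sum_of_support_subset v1 h1]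
  · refine sum_congr rfl fun t1 _ => ?_
    rw [Finsupp.sum_of_support_subset v2 h2]
    · refine sum_congr rfl fun t2 _ => ?_
      rw [Finsupp.sum_of_support_subset v h]
      intro σ _
      ring
    · intro t2 _
      rw [Finsupp.sum]
      exact sum_eq_zero fun σ _ => by ring
  · intro t1 _
    rw [Finsupp.sum]
    refine sum_eq_zero fun t2 _ => ?_
    rw [Finsupp.sum]
    exact sum_eq_zero fun σ _ => by ring

theorem tri_add1 (n1 n2 : ℕ) (v1 v1' v2 v : M) :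
    tri n1 n2 (v1 + v1') v2 v = tri n1 n2 v1 v2 v + tri n1 n2 v1' v2 v := by
  classical
  have s2 : v2.support ⊆ v2.support := subset_rfl
  have s3 : v.support ⊆ v.support := subset_rfl
  rw [tri_eq_sum n1 n2 (Finsupp.support_add (g₁ := v1) (g₂ := v1')) s2 s3,
    tri_eq_sum n1 n2 (S1 := v1.support ∪ v1'.support) subset_union_left s2 s3,
    tri_eq_sum n1 n2 (S1 := v1.support ∪ v1'.support) subset_union_right s2 s3, ← sum_add_distrib]
  refine sum_congr rfl fun t1 _ => ?_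
  rw [← sum_add_distrib]
  refine sum_congr rfl fun t2 _ => ?_
  rw [← sum_add_distrib]
  refine sum_congr rfl fun σ _ => ?_
  rw [Finsupp.add_apply]
  ring

theorem tri_add2 (n1 n2 : ℕ) (v1 v2 v2' v : M) :
    tri n1 n2 v1 (v2 + v2') v = tri n1 n2 v1 v2 v + tri n1 n2 v1 v2' v := by
  classical
  have s1 : v1.support ⊆ v1.support := subset_rfl
  have s3 : v.support ⊆ v.support := subset_rfl
  rw [tri_eq_sum n1 n2 s1 (Finsupp.support_add (g₁ := v2) (g₂ := v2')) s3,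
    tri_eq_sum n1 n2 (S2 := v2.support ∪ v2'.support) s1 subset_union_left s3,
    tri_eq_sum n1 n2 (S2 := v2.support ∪ v2'.support) s1 subset_union_right s3, ← sum_add_distrib]
  refine sum_congr rfl fun t1 _ => ?_
  rw [← sum_add_distrib]
  refine sum_congr rfl fun t2 _ => ?_
  rw [← sum_add_distrib]
  refine sum_congr rfl fun σ _ => ?_
  rw [Finsupp.add_apply]
  ring

theorem tri_add3 (n1 n2 : ℕ) (v1 v2 v v' : M) :
    tri n1 n2 v1 v2 (v + v') = tri n1 n2 v1 v2 v + tri n1 n2 v1 v2 v' := by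
  classical
  have s1 : v1.support ⊆ v1.support := subset_rfl
  have s2 : v2.support ⊆ v2.support := subset_rfl
  rw [tri_eq_sum n1 n2 s1 s2 (Finsupp.support_add (g₁ := v) (g₂ := v')),
    tri_eq_sum n1 n2 (S := v.support ∪ v'.support) s1 s2 subset_union_left,
    tri_eq_sum n1 n2 (S := v.support ∪ v'.support) s1 s2 subset_union_right, ← sum_add_distrib]
  refine sum_congr rfl fun t1 _ => ?_
  rw [← sum_add_distrib]
  refine sum_congr rfl fun t2 _ => ?_
  rw [← sum_add_distrib]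
  refine sum_congr rfl fun σ _ => ?_
  rw [Finsupp.add_apply]
  ring

theorem tri_zero1 (n1 n2 : ℕ) (v2 v : M) : tri n1 n2 0 v2 v = 0 := by
  unfold tri
  rw [Finsupp.sum_zero_index]

theorem tri_zero2 (n1 n2 : ℕ) (v1 v : M) : tri n1 n2 v1 0 v = 0 := by
  unfold tri
  rw [Finsupp.sum]
  exact sum_eq_zero fun t1 _ => by rw [Finsupp.sum_zero_index]

theorem tri_zero3 (n1 n2 : ℕ) (v1 v2 : M) : tri n1 n2 v1 v2 0 = 0 := by
  unfold tri
  rw [Finsupp.sum]
  refine sum_eq_zero fun t1 _ => ?_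
  rw [Finsupp.sum]
  exact sum_eq_zero fun t2 _ => by rw [Finsupp.sum_zero_index]

theorem tri_single (n1 n2 : ℕ) (t1 t2 σ : St) (x1 x2 x : ℝ) :
    tri n1 n2 (Finsupp.single t1 x1) (Finsupp.single t2 x2) (Finsupp.single σ x) =
      x1 * x2 * x * cf n1 n2 t1 t2 σ := by
  unfold tri
  rw [Finsupp.sum_single_index, Finsupp.sum_single_index, Finsupp.sum_single_index]
  · ring
  · rw [Finsupp.sum]
    exact sum_eq_zero fun σ _ => by ring
  · rw [Finsupp.sum]
    refine sum_eq_zero fun t2 _ => ?_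
    rw [Finsupp.sum]
    exact sum_eq_zero fun σ _ => by ring

theorem tri_sum1 {ι : Type*} (n1 n2 : ℕ) (F : Finset ι) (f : ι → M) (v2 v : M) :
    tri n1 n2 (∑ a ∈ F, f a) v2 v = ∑ a ∈ F, tri n1 n2 (f a) v2 v := by
  classical
  induction F using Finset.induction_on with
  | empty => rw [sum_empty, sum_empty, tri_zero1]
  | insert a F ha ih => rw [sum_insert ha, sum_insert ha, tri_add1, ih]

theorem tri_sum2 {ι : Type*} (n1 n2 : ℕ) (F : Finset ι) (v1 : M) (f : ι → M) (v : M) :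
    tri n1 n2 v1 (∑ a ∈ F, f a) v = ∑ a ∈ F, tri n1 n2 v1 (f a) v := by
  classical
  induction F using Finset.induction_on with
  | empty => rw [sum_empty, sum_empty, tri_zero2]
  | insert a F ha ih => rw [sum_insert ha, sum_insert ha, tri_add2, ih]

theorem tri_sum3 {ι : Type*} (n1 n2 : ℕ) (F : Finset ι) (v1 v2 : M) (f : ι → M) :
    tri n1 n2 v1 v2 (∑ a ∈ F, f a) = ∑ a ∈ F, tri n1 n2 v1 v2 (f a) := by
  classical
  induction F using Finset.induction_on with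
  | empty => rw [sum_empty, sum_empty, tri_zero3]
  | insert a F ha ih => rw [sum_insert ha, sum_insert ha, tri_add3, ih]

theorem tri_sums {ι κ μ : Type*} (n1 n2 : ℕ) (F : Finset ι) (G : Finset κ) (H : Finset μ)
    (t1 : ι → St) (t2 : κ → St) (σ : μ → St) (x1 x2 x : ℝ) :
    tri n1 n2 (∑ a ∈ F, Finsupp.single (t1 a) x1) (∑ b ∈ G, Finsupp.single (t2 b) x2)
      (∑ c ∈ H, Finsupp.single (σ c) x) =
      ∑ a ∈ F, ∑ b ∈ G, ∑ c ∈ H, x1 * x2 * x * cf n1 n2 (t1 a) (t2 b) (σ c) := by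
  rw [tri_sum1]
  refine sum_congr rfl fun a _ => ?_
  rw [tri_sum2]
  refine sum_congr rfl fun b _ => ?_
  rw [tri_sum3]
  refine sum_congr rfl fun c _ => ?_
  rw [tri_single]

theorem tri_tendsto (n1 n2 m1 m2 m : ℕ) {v1 v2 v : ℕ → M} {w1 w2 w : M}
    (h1 : ∀ N, v1 N ∈ Sup (W m1)) (h2 : ∀ N, v2 N ∈ Sup (W m2)) (h : ∀ N, v N ∈ Sup (W m))
    (g1 : w1 ∈ Sup (W m1)) (g2 : w2 ∈ Sup (W m2)) (g : w ∈ Sup (W m))
    (l1 : ∀ σ, Tendsto (fun N => v1 N σ) atTop (𝓝 (w1 σ)))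
    (l2 : ∀ σ, Tendsto (fun N => v2 N σ) atTop (𝓝 (w2 σ)))
    (l : ∀ σ, Tendsto (fun N => v N σ) atTop (𝓝 (w σ))) :
    Tendsto (fun N => tri n1 n2 (v1 N) (v2 N) (v N)) atTop (𝓝 (tri n1 n2 w1 w2 w)) := by
  classical
  have hsub : ∀ {k : ℕ} {u : M}, u ∈ Sup (W k) → u.support ⊆ (W_finite k).toFinset := by
    intro k u hu σ hσ
    rw [Set.Finite.mem_toFinset]
    exact ((Finsupp.mem_supported ℝ u).1 hu) hσ
  rw [tri_eq_sum n1 n2 (hsub g1) (hsub g2) (hsub g)]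
  have e : (fun N => tri n1 n2 (v1 N) (v2 N) (v N)) = fun N =>
      ∑ t1 ∈ (W_finite m1).toFinset, ∑ t2 ∈ (W_finite m2).toFinset, ∑ σ ∈ (W_finite m).toFinset,
        v1 N t1 * v2 N t2 * v N σ * cf n1 n2 t1 t2 σ := by
    funext N
    rw [tri_eq_sum n1 n2 (hsub (h1 N)) (hsub (h2 N)) (hsub (h N))]
  rw [e]
  refine tendsto_finsetSum _ fun t1 _ => tendsto_finsetSum _ fun t2 _ => tendsto_finsetSum _ fun σ _ => ?_
  exact (((l1 t1).mul (l2 t2)).mul (l σ)).mul tendsto_const_nhds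

theorem T_pow_tendsto (n : ℕ) (σ : St) :
    Tendsto (fun N : ℕ => ((T n 0) ^ N) (Finsupp.single (bot n) 1) σ) atTop (𝓝 (P n 0 σ)) := by
  have hb : Finsupp.single (bot n) (1 : ℝ) ∈ Sup (W n) := by
    apply Finsupp.single_mem_supported
    exact bot_W n
  have ht : tot (Finsupp.single (bot n) (1 : ℝ)) = 1 := tot_single _ _
  have := P_tendsto n IP.PG.zero_Cube hb σ
  rwa [ht, one_mul] at this

/-- the laws of the three half strips converge to the stationary laws -/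
theorem tri_T_tendsto (n1 n2 : ℕ) :
    Tendsto (fun N : ℕ => tri n1 n2 (((T n1 0) ^ N) (Finsupp.single (bot n1) 1))
      (((T n2 0) ^ N) (Finsupp.single (bot n2) 1))
      (((T (n1 + n2 + 1) 0) ^ (N + 1)) (Finsupp.single (bot (n1 + n2 + 1)) 1))) atTop
      (𝓝 (tri n1 n2 (P n1 0) (P n2 0) (P (n1 + n2 + 1) 0))) := by
  have hb : ∀ n, Finsupp.single (bot n) (1 : ℝ) ∈ Sup (W n) := by
    intro n
    apply Finsupp.single_mem_supported
    exact bot_W n
  exact tri_tendsto n1 n2 n1 n2 (n1 + n2 + 1) (fun N => IP.PG.T_pow_Sup n1 0 _ (hb n1))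
    (fun N => IP.PG.T_pow_Sup n2 0 _ (hb n2)) (fun N => IP.PG.T_pow_Sup (n1 + n2 + 1) 0 _ (hb _))
    (P_Sup n1 0) (P_Sup n2 0) (P_Sup _ 0) (T_pow_tendsto n1) (T_pow_tendsto n2)
    (fun σ => (T_pow_tendsto (n1 + n2 + 1) σ).comp (tendsto_add_atTop_nat 1))

end IP.Slit
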