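import Pool.Agent.Helper60.Slit.Wheel
/-! SLIT STRIP: the confluent solutions of the vanishing conditions. -/
namespace IP.Slit
open IP Finset Real

open Polynomial in
theorem ise_deg {K : Type*} [Field K] (r : ℕ) (a : ℕ → K) (p : ℕ → Prop) [DecidablePred p] :
    (∑ j ∈ (range (r + 1)).filter p, C (a j) * X ^ (j / 2)).natDegree ≤ r / 2 := by
  apply natDegree_sum_le_of_forall_le
  intro j hj
  rw [mem_filter, mem_range] at hj
  refine (natDegree_C_mul_X_pow_le _ _).trans ?_
  omega

open Polynomial in
theorem isE (r : ℕ) (h : r % 2 = 1) :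
    IsE r (Chi r (fun _ => (2 : ℂ))) (AP r (fun _ => (2 : ℂ))) (BP r (fun _ => (2 : ℂ))) := by
  refine ⟨ise_deg _ _ _, ise_deg _ _ _, ?_, ?_⟩
  · unfold BP
    rw [finsetSum_coeff, sum_eq_single r]
    · rw [coeff_C_mul, coeff_X_pow, if_pos rfl, mul_one, ka_top]
    · intro j hj hjr
      rw [mem_filter, mem_range] at hj
      rw [coeff_C_mul, coeff_X_pow, if_neg (by omega), mul_zero]
    · intro hr
      have h2 : r ∈ (range (r + 1)).filter (fun j => j % 2 = 1) := by
        rw [mem_filter, mem_range]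
        exact ⟨by omega, h⟩
      exact absurd h2 hr
  · obtain ⟨P, _, _, hP⟩ := Chi_lead r (fun _ => (2 : ℂ))
    refine ⟨P, ?_⟩
    apply Polynomial.funext
    intro y
    have h1 := AB_eval r (fun _ => (2 : ℂ)) y
    rw [hP] at h1
    simp only [prod_const, card_range] at h1
    simp only [eval_add, eval_mul, eval_comp, eval_sub, eval_pow, eval_X, eval_C]
    rw [← h1]
    ring
end IP.Slit
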