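import Pool.Agent.Helper53.Slit.Prob
import Pool.Agent.Helper12.Slit.Asym

/-!
Cardy's formula for the slit strip, from the algebraic identity `TriUrn`.
-/

set_option autoImplicit false

namespace H47Perc.SL
open Finset Filter Topology SimpleGraph H47Perc.DS

/-- the algebraic identity (to be proved by the algebra files) -/
def TriUrn : Prop := ∀ n1 n2 : ℕ,
  IP.Slit.tri n1 n2 (IP.P n1 0) (IP.P n2 0) (IP.P (n1 + n2 + 1) 0) =
    Slit.urn (2 * (n1 + n2 + 1) + 1) (2 * n1 + 1)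

/-- the crossing probability of the infinite slit strip -/
noncomputable def pSlitInf (L i : ℤ) : ℝ := ⨆ M : ℕ, pSlit L i M

lemma pSlit_nonneg (L i M : ℤ) : 0 ≤ pSlit L i M := by
  unfold pSlit Pool.Agent.Helper69.RSW.P
  positivity

lemma odd_split {L i : ℕ} (hL : Odd L) (hi : Odd i) (h : i < L) :
    ∃ n1 n2 : ℕ, L = 2 * (n1 + n2 + 1) + 1 ∧ i = 2 * n1 + 1 := by
  obtain ⟨a, rfl⟩ := hL
  obtain ⟨b, rfl⟩ := hi
  exact ⟨b, a - b - 1, by omega, rfl⟩

/-- exact value of the crossing probability of the infinite slit strip -/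
theorem pSlit_lim (H : TriUrn) {L i : ℕ} (hL : Odd L) (hi : Odd i) (h : i < L) :
    Tendsto (fun M : ℕ => pSlit L i M) atTop (𝓝 (Slit.urn L i)) := by
  obtain ⟨n1, n2, rfl, rfl⟩ := odd_split hL hi h
  have h1 := pSlit_tendsto n1 n2
  rw [H n1 n2] at h1
  push_cast at h1 ⊢
  exact h1

lemma pSlit_mono' (L i : ℤ) : Monotone (fun M : ℕ => pSlit L i (M : ℤ)) := by
  intro M M' hM
  exact pSlit_mono (by exact_mod_cast hM)

theorem pSlitInf_eq (H : TriUrn) {L i : ℕ} (hL : Odd L) (hi : Odd i) (h : i < L) :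
    pSlitInf L i = Slit.urn L i := by
  have h1 := pSlit_lim H hL hi h
  have h2 : BddAbove (Set.range (fun M : ℕ => pSlit L i (M : ℤ))) := by
    refine ⟨Slit.urn L i, ?_⟩
    rintro _ ⟨M, rfl⟩
    exact (pSlit_mono' L i).ge_of_tendsto h1 M
  exact tendsto_nhds_unique (tendsto_atTop_ciSup (pSlit_mono' L i) h2) h1

/-- **Cardy's formula for the slit strip.** -/
theorem pSlitInf_cardy (H : TriUrn) {L i : ℕ → ℕ} {a : ℝ} (hL : ∀ m, Odd (L m))
    (hi : ∀ m, Odd (i m)) (h : ∀ m, i m < L m) (hlim : Tendsto L atTop atTop)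
    (ha : Tendsto (fun m => (i m : ℝ) / L m) atTop (𝓝 a)) :
    Tendsto (fun m => pSlitInf (L m) (i m)) atTop (𝓝 (Slit.cardy a)) := by
  refine (Slit.urn_lim hlim (fun m => (h m).le) ha).congr fun m => ?_
  rw [pSlitInf_eq H (hL m) (hi m) (h m)]

end H47Perc.SL
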