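import Pool.Agent.Helper53.Slit.FinalC

/-!
Cardy's formula for slit strips, uniform version.
-/

set_option autoImplicit false

namespace H47Perc.SL
open Finset Filter Topology SimpleGraph H47Perc H47Perc.DS
open Pool.Agent.Helper69.RSW (P P_le_one P_nonneg)

/-- pairs `(L, i)` with `L → ∞` and `i / L → a` -/
noncomputable def nearF (a : ℝ) : Filter (ℕ × ℕ) :=
  comap (fun p : ℕ × ℕ => p.1) atTop ⊓ comap (fun p : ℕ × ℕ => (p.2 : ℝ) / p.1) (𝓝 a)

instance (a : ℝ) : (nearF a).IsCountablyGenerated := by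
  unfold nearF
  infer_instance

/-- `L² / L → ∞` -/
lemma sq_ratio {L : ℕ → ℕ} (hlim : Tendsto L atTop atTop) :
    Tendsto (fun m => ((L m * L m : ℕ) : ℝ) / L m) atTop atTop := by
  have hL : Tendsto (fun m => (L m : ℝ)) atTop atTop := tendsto_natCast_atTop_atTop.comp hlim
  refine hL.congr' ?_
  filter_upwards [hL.eventually_gt_atTop 0] with m hm
  push_cast
  field_simp

/-- the crossing probability at height `L²` -/
theorem pSlit_near (H : TriUrn) {a : ℝ} (ha0 : 0 < a) (ha1 : a < 1) :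
    Tendsto (fun p : ℕ × ℕ => pSlit p.1 p.2 ((p.1 * p.1 : ℕ) : ℤ)) (nearF a)
      (𝓝 (Slit.cardy a)) := by
  apply tendsto_of_seq_tendsto
  intro x hx
  unfold nearF at hx
  rw [tendsto_inf, tendsto_comap_iff, tendsto_comap_iff] at hx
  exact pSlit_cardy_all H ha0 ha1 (L := fun m => (x m).1) (i := fun m => (x m).2)
    (M := fun m => (x m).1 * (x m).1) hx.1 hx.2 (sq_ratio hx.1)

lemma pSlit_le_one (L i M : ℤ) : pSlit L i M ≤ 1 := P_le_one _ _

/-- exponentially small dependence on the height -/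
theorem pSlit_height : ∃ c : ℝ, 0 < c ∧ ∃ C : ℝ, 0 < C ∧ ∀ L i M M' : ℕ, 1 ≤ L → i < L → M ≤ M' →
    pSlit L i M' - pSlit L i M ≤ C * Real.exp (-(c * (M / L))) := by
  obtain ⟨c, hc, C, hC, h⟩ := pSlit_trunc
  refine ⟨c, hc, C * Real.exp c, by positivity, fun L i M M' hL hiL hMM => ?_⟩
  have hL0 : 0 < L := by omega
  set K : ℕ := M / L with hK
  have hKM : K * L ≤ M := Nat.div_mul_le_self M L
  have h2 : pSlit L i (K * L : ℕ) ≤ pSlit L i M := pSlit_mono' L i hKM
  have h3 : pSlit L i M' - pSlit L i (K * L : ℕ) ≤ C * Real.exp (-(c * K)) := by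
    have := h (L : ℤ) (i : ℤ) (by exact_mod_cast hL0) (by exact_mod_cast hiL) K M'
      (by exact_mod_cast hKM.trans hMM)
    push_cast
    exact this
  have h4 : Real.exp (-(c * K)) ≤ Real.exp c * Real.exp (-(c * (M / L))) := by
    rw [← Real.exp_add]
    apply Real.exp_le_exp.2
    have h5 : (M : ℝ) / L ≤ K + 1 := by
      rw [div_le_iff₀ (by exact_mod_cast hL0)]
      have h6 : M < (K + 1) * L := by
        rw [hK]
        exact Nat.lt_mul_of_div_lt (Nat.lt_succ_self _) hL0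
      exact_mod_cast h6.le
    nlinarith
  calc pSlit L i M' - pSlit L i M ≤ pSlit L i M' - pSlit L i (K * L : ℕ) := by linarith
    _ ≤ C * Real.exp (-(c * K)) := h3
    _ ≤ C * (Real.exp c * Real.exp (-(c * (M / L)))) := by gcongr
    _ = _ := by ring

/-- two heights -/
lemma pSlit_two {c C : ℝ} (hC : 0 < C)
    (h : ∀ L i M M' : ℕ, 1 ≤ L → i < L → M ≤ M' →
      pSlit L i M' - pSlit L i M ≤ C * Real.exp (-(c * (M / L)))) {L i M M' : ℕ} (hL : 1 ≤ L)
    (hi : i < L) : |pSlit L i M - pSlit L i M'| ≤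
      C * Real.exp (-(c * (M / L))) + C * Real.exp (-(c * (M' / L))) := by
  have e1 : 0 ≤ C * Real.exp (-(c * (M / L))) := by positivity
  have e2 : 0 ≤ C * Real.exp (-(c * (M' / L))) := by positivity
  rcases le_total M M' with hM | hM
  · have h1 := h L i M M' hL hi hM
    have h2 := pSlit_mono' L i hM
    simp only at h2
    rw [abs_le]
    constructor <;> linarith
  · have h1 := h L i M' M hL hi hM
    have h2 := pSlit_mono' L i hM
    simp only at h2
    rw [abs_le]
    constructor <;> linarith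

/-- **Cardy's formula for slit strips**: for `L` large and `i / L` close to `a` the crossing
probability of the slit strip of height `M` is within `ε + C exp (-c M / L)` of Cardy's value. -/
theorem pSlit_uniform (H : TriUrn) : ∃ c C : ℝ, 0 < c ∧ ∀ a : ℝ, 0 < a → a < 1 → ∀ ε : ℝ, 0 < ε →
    ∃ δ : ℝ, 0 < δ ∧ ∃ L₀ : ℕ, ∀ L i M : ℕ, L₀ ≤ L → |(i : ℝ) / L - a| < δ →
      |pSlit L i M - Slit.cardy a| ≤ ε + C * Real.exp (-(c * (M / L))) := by
  obtain ⟨c, hc, C, hC, h⟩ := pSlit_height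
  refine ⟨c, C, hc, fun a ha0 ha1 ε hε => ?_⟩
  have h1 := pSlit_near H ha0 ha1
  rw [Metric.tendsto_nhds] at h1
  have h2 := h1 (ε / 2) (half_pos hε)
  unfold nearF at h2
  rw [((atTop_basis.comap (fun p : ℕ × ℕ => p.1)).inf
    (Metric.nhds_basis_ball.comap (fun p : ℕ × ℕ => (p.2 : ℝ) / p.1))).eventually_iff] at h2
  obtain ⟨⟨N, δ⟩, ⟨_, hδ⟩, h3⟩ := h2
  -- the error at height L²
  have hexp : Tendsto (fun L : ℕ => C * Real.exp (-(c * (L : ℝ)))) atTop (𝓝 0) := by
    have e1 : Tendsto (fun L : ℕ => c * (L : ℝ)) atTop atTop :=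
      tendsto_natCast_atTop_atTop.const_mul_atTop hc
    have e2 := (Real.tendsto_exp_neg_atTop_nhds_zero.comp e1).const_mul C
    rw [mul_zero] at e2
    exact e2
  have h4 := (Metric.tendsto_nhds.1 hexp) (ε / 2) (half_pos hε)
  obtain ⟨N', hN'⟩ := eventually_atTop.1 h4
  refine ⟨min δ (1 - a), lt_min hδ (by linarith), max (max N N') 1, fun L i M hL hi => ?_⟩
  have hL1 : 1 ≤ L := (le_max_right _ _).trans hL
  have hLN : N ≤ L := ((le_max_left _ _).trans (le_max_left _ _)).trans hL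
  have hLN' : N' ≤ L := ((le_max_right _ _).trans (le_max_left _ _)).trans hL
  have hL0 : (0 : ℝ) < L := by exact_mod_cast hL1
  have hiL : i < L := by
    have e1 := (abs_lt.1 hi).2
    have e2 : (i : ℝ) / L < 1 := by
      have := min_le_right δ (1 - a)
      linarith
    rw [div_lt_one hL0] at e2
    exact_mod_cast e2
  have e3 := @h3 (L, i) ⟨by simpa using hLN, by
    simp only [Set.mem_preimage, Metric.mem_ball, Real.dist_eq]
    exact hi.trans_le (min_le_left _ _)⟩
  rw [Real.dist_eq] at e3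
  simp only at e3
  have e4 := pSlit_two hC h (M := M) (M' := L * L) hL1 hiL
  have e5 := hN' L hLN'
  rw [Real.dist_eq, sub_zero] at e5
  have e6 : ((L * L : ℕ) : ℝ) / L = L := by
    push_cast
    field_simp
  rw [e6] at e4
  have e7 := (abs_lt.1 e5).2
  calc |pSlit L i M - Slit.cardy a| ≤ |pSlit L i M - pSlit L i ((L * L : ℕ) : ℤ)| +
        |pSlit L i ((L * L : ℕ) : ℤ) - Slit.cardy a| := abs_sub_le _ _ _
    _ ≤ (C * Real.exp (-(c * (M / L))) + C * Real.exp (-(c * L))) + ε / 2 := add_le_add e4 e3.le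
    _ ≤ _ := by linarith

end H47Perc.SL
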