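import Pool.Agent.Helper8.PercGlue.Strip
import Pool.Agent.Helper53.Slit.Tri

/-!
The slit strip: the three half strips, gluing of their states.

Coordinates `u = x + y`, `w = x - y`.  The strip `0 ≤ u ≤ 2n+1`, `n = n1+n2+1`, is cut between the lines
`u = 2 n1 + 1` and `u = 2 n1 + 2` at the heights `w ≥ 1`.
-/

set_option autoImplicit false

namespace H47Perc.SL
open Finset Filter Topology SimpleGraph H47Perc.DS
open Pool.Agent.Helper69.RSW (Up perc_half_eq P_restrict P_congr P_mono Dep)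

/-! ### connectivity with a wired set -/

/-- connectivity in `ω`, where all points of `A` are identified -/
def cs (A : Set (ℤ × ℤ)) (ω : Finset (Sym2 (ℤ × ℤ))) : Setoid (ℤ × ℤ) :=
  Relation.EqvGen.setoid (fun u v => s(u, v) ∈ ω ∨ (u ∈ A ∧ v ∈ A))

lemma cs_edge {A : Set (ℤ × ℤ)} {ω : Finset (Sym2 (ℤ × ℤ))} {u v : ℤ × ℤ} (h : s(u, v) ∈ ω) :
    cs A ω u v := Relation.EqvGen.rel _ _ (Or.inl h)

lemma cs_wall {A : Set (ℤ × ℤ)} {ω : Finset (Sym2 (ℤ × ℤ))} {u v : ℤ × ℤ} (h : u ∈ A)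
    (h' : v ∈ A) : cs A ω u v := Relation.EqvGen.rel _ _ (Or.inr ⟨h, h'⟩)

lemma cs_le_iff {A : Set (ℤ × ℤ)} {ω : Finset (Sym2 (ℤ × ℤ))} {S : Setoid (ℤ × ℤ)} :
    cs A ω ≤ S ↔ (∀ u v, s(u, v) ∈ ω → S u v) ∧ ∀ u v : ℤ × ℤ, u ∈ A → v ∈ A → S u v := by
  constructor
  · intro h
    exact ⟨fun u v h' => h (cs_edge h'), fun u v h1 h2 => h (cs_wall h1 h2)⟩
  · rintro ⟨h1, h2⟩
    apply Setoid.eqvGen_le
    rintro x y (h | ⟨h, h'⟩)
    · exact h1 x y h
    · exact h2 x y h h'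

lemma cs_isolated {A : Set (ℤ × ℤ)} {ω : Finset (Sym2 (ℤ × ℤ))} {v : ℤ × ℤ} (h1 : ∀ u, s(v, u) ∉ ω)
    (h2 : v ∉ A) {u : ℤ × ℤ} (h : cs A ω v u) : u = v := by
  let S : Setoid (ℤ × ℤ) :=
    { r := fun x y => x = y ∨ (x ≠ v ∧ y ≠ v)
      iseqv := by
        refine ⟨fun x => Or.inl rfl, ?_, ?_⟩
        · rintro x y (rfl | ⟨h1, h2⟩)
          · exact Or.inl rfl
          · exact Or.inr ⟨h2, h1⟩
        · rintro x y z (rfl | ⟨h1, h2⟩) (rfl | ⟨h3, h4⟩)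
          · exact Or.inl rfl
          · exact Or.inr ⟨h3, h4⟩
          · exact Or.inr ⟨h1, h2⟩
          · exact Or.inr ⟨h1, h4⟩ }
  have hS : cs A ω ≤ S := by
    rw [cs_le_iff]
    refine ⟨fun x y he => ?_, fun x y hx hy => ?_⟩
    · refine Or.inr ⟨?_, ?_⟩
      · rintro rfl
        exact h1 _ he
      · rintro rfl
        rw [Sym2.eq_swap] at he
        exact h1 _ he
    · refine Or.inr ⟨?_, ?_⟩
      · rintro rfl
        exact h2 hx
      · rintro rfl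
        exact h2 hy
  rcases hS h with h | ⟨h, _⟩
  · exact h.symm
  · exact absurd rfl h

/-- the left side of the slit -/
def SI (i : ℤ) : Set (ℤ × ℤ) := {z | z.1 + z.2 = i ∧ 1 ≤ z.1 - z.2}

lemma mem_SI {i : ℤ} {z : ℤ × ℤ} : z ∈ SI i ↔ z.1 + z.2 = i ∧ 1 ≤ z.1 - z.2 := Iff.rfl

lemma cs_le_cw (i : ℤ) (ω : Finset (Sym2 (ℤ × ℤ))) : cs (SI i) ω ≤ cw i ω := by
  rw [cs_le_iff]
  exact ⟨fun u v h => cw_edge h, fun u v h1 h2 => cw_wall h1.1 h2.1⟩

/-- the wall of the upper left strip may be restricted to the left side of the slit -/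
lemma cs_of_cw {n1 : ℕ} {ω : Finset (Sym2 (ℤ × ℤ))}
    (hω : ∀ u v : ℤ × ℤ, s(u, v) ∈ ω → 1 ≤ u.1 - u.2) {x y : ℤ × ℤ} (hx : 1 ≤ x.1 - x.2)
    (hy : 1 ≤ y.1 - y.2) (h : cw (2 * n1 + 1) ω x y) : cs (SI (2 * n1 + 1)) ω x y := by
  classical
  set r : ℤ × ℤ → ℤ × ℤ := fun z =>
    if z.1 + z.2 = 2 * n1 + 1 ∧ z.1 - z.2 < 1 then ((n1 : ℤ) + 1, (n1 : ℤ)) else z with hr
  have hr1 : ∀ z : ℤ × ℤ, 1 ≤ z.1 - z.2 → r z = z := by
    intro z hz
    simp only [hr]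
    rw [if_neg (by omega)]
  have hr2 : ∀ z : ℤ × ℤ, z.1 + z.2 = 2 * n1 + 1 → r z ∈ SI (2 * n1 + 1) := by
    intro z hz
    simp only [hr]
    by_cases h1 : z.1 - z.2 < 1
    · rw [if_pos ⟨hz, h1⟩, mem_SI]
      simp only
      omega
    · rw [if_neg (fun h' => h1 h'.2), mem_SI]
      omega
  have hle : cw (2 * n1 + 1) ω ≤ Setoid.comap r (cs (SI (2 * n1 + 1)) ω) := by
    rw [cw_le_iff]
    constructor
    · intro u v huv
      rw [Setoid.comap_rel, hr1 u (hω u v huv), hr1 v (hω v u (by rw [Sym2.eq_swap]; exact huv))]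
      exact cs_edge huv
    · intro u v hu hv
      rw [Setoid.comap_rel]
      exact cs_wall (hr2 u hu) (hr2 v hv)
  have h2 := hle h
  rw [Setoid.comap_rel, hr1 x hx, hr1 y hy] at h2
  exact h2

lemma fr0_apply {n k : ℕ} (h : k ≤ n) : fr n 0 k = ((k : ℤ) + 1, (k : ℤ)) := by
  rw [fr_zero, min_eq_left (by exact_mod_cast h)]

lemma fr0_wall {n k : ℕ} (h : n ≤ k) : fr n 0 k = ((n : ℤ) + 1, (n : ℤ)) := by
  rw [fr_zero, min_eq_right (by exact_mod_cast h)]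

lemma edge_reg {n : ℕ} {a b : ℤ} {ω : Finset (Sym2 (ℤ × ℤ))} (h : ω ⊆ edgesIn (reg n a b))
    {u v : ℤ × ℤ} (huv : s(u, v) ∈ ω) : 0 ≤ u.1 + u.2 ∧ u.1 + u.2 ≤ 2 * n + 1 ∧ a ≤ u.1 - u.2 ∧
      u.1 - u.2 ≤ b := mem_reg.1 (mem_edgesIn.1 (h huv)).1

/-- the state of the upper left strip on the sites of the lower strip -/
lemma comap_left (n1 n2 : ℕ) {b : ℤ} {ω : Finset (Sym2 (ℤ × ℤ))} (h : ω ⊆ edgesIn (reg n1 1 b))
    (x y : ℕ) : cs (SI (2 * n1 + 1)) ω (fr (n1 + n2 + 1) 0 x) (fr (n1 + n2 + 1) 0 y) ↔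
      (IP.Slit.liftL n1 (st (2 * n1 + 1) (fr n1 0) ω)) x y ∨ (n1 + n2 + 1 ≤ x ∧ n1 + n2 + 1 ≤ y) := by
  have hiso : ∀ z : ℤ × ℤ, 2 * (n1 : ℤ) + 1 < z.1 + z.2 → ∀ z', cs (SI (2 * n1 + 1)) ω z z' → z' = z := by
    intro z hz z' hzz
    refine cs_isolated ?_ ?_ hzz
    · intro v hv
      have := edge_reg h hv
      omega
    · intro hz'
      have := hz'.1
      omega
  have hinj : ∀ x y : ℕ, fr (n1 + n2 + 1) 0 x = fr (n1 + n2 + 1) 0 y →
      x = y ∨ (n1 + n2 + 1 ≤ x ∧ n1 + n2 + 1 ≤ y) := by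
    intro x y hxy
    rw [fr_zero, fr_zero, Prod.mk.injEq] at hxy
    push_cast at hxy
    omega
  have hsum : ∀ x : ℕ, n1 < x → 2 * (n1 : ℤ) + 1 < (fr (n1 + n2 + 1) 0 x).1 + (fr (n1 + n2 + 1) 0 x).2 := by
    intro x hx
    rw [fr_zero]
    simp only
    push_cast
    omega
  constructor
  · intro hc
    by_cases hx : x ≤ n1
    · by_cases hy : y ≤ n1
      · left
        right
        refine ⟨hx, hy, ?_⟩
        rw [fr0_apply (by omega), fr0_apply (by omega)] at hc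
        show cw (2 * n1 + 1) ω (fr n1 0 x) (fr n1 0 y)
        rw [fr0_apply hx, fr0_apply hy]
        exact cs_le_cw _ _ hc
      · have := hiso _ (hsum y (by omega)) _ (Setoid.symm' _ hc)
        rcases hinj x y this with h1 | h1
        · omega
        · omega
    · have := hiso _ (hsum x (by omega)) _ hc
      rcases hinj y x this with h1 | h1
      · left
        left
        exact h1.symm
      · exact Or.inr ⟨h1.2, h1.1⟩
  · rintro ((rfl | ⟨hx, hy, hc⟩) | ⟨hx, hy⟩)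
    · exact (cs _ _).refl _
    · rw [fr0_apply (by omega), fr0_apply (by omega)]
      change cw (2 * n1 + 1) ω (fr n1 0 x) (fr n1 0 y) at hc
      rw [fr0_apply hx, fr0_apply hy] at hc
      refine cs_of_cw (fun u v huv => (edge_reg h huv).2.2.1) ?_ ?_ hc
      · simp only; omega
      · simp only; omega
    · rw [fr0_wall hx, fr0_wall hy]

/-! ### the shift -/

/-- shift of the upper right strip -/
def sh (n1 : ℕ) : ℤ × ℤ ≃ ℤ × ℤ where
  toFun z := (z.1 + n1 + 1, z.2 + n1 + 1)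
  invFun z := (z.1 - n1 - 1, z.2 - n1 - 1)
  left_inv z := by ext <;> simp only <;> ring
  right_inv z := by ext <;> simp only <;> ring

lemma sh_apply (n1 : ℕ) (z : ℤ × ℤ) : sh n1 z = (z.1 + n1 + 1, z.2 + n1 + 1) := rfl
lemma sh_symm_apply (n1 : ℕ) (z : ℤ × ℤ) : (sh n1).symm z = (z.1 - n1 - 1, z.2 - n1 - 1) := rfl

lemma sh_iso (n1 : ℕ) : IsIso (sh n1) := by
  intro u v
  simp only [sh_apply, lattice]
  rw [show u.1 + (n1 : ℤ) + 1 = v.1 + n1 + 1 ↔ u.1 = v.1 by omega,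
    show u.2 + (n1 : ℤ) + 1 = v.2 + n1 + 1 ↔ u.2 = v.2 by omega,
    show u.2 + (n1 : ℤ) + 1 - (v.2 + n1 + 1) = u.2 - v.2 by ring,
    show u.1 + (n1 : ℤ) + 1 - (v.1 + n1 + 1) = u.1 - v.1 by ring]

lemma cw_map_iff {f : ℤ × ℤ ≃ ℤ × ℤ} {c L L' : ℤ} (hf : ∀ z, (f z).1 + (f z).2 = z.1 + z.2 + c)
    (hL : L' = L + c) (ω : Finset (Sym2 (ℤ × ℤ))) (x y : ℤ × ℤ) :
    cw L' (ω.map (emb f)) (f x) (f y) ↔ cw L ω x y := by
  have hf' : ∀ z : ℤ × ℤ, (f.symm z).1 + (f.symm z).2 + c = z.1 + z.2 := by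
    intro z
    rw [← hf, Equiv.apply_symm_apply]
  constructor
  · intro h
    have hle : cw L' (ω.map (emb f)) ≤ Setoid.comap f.symm (cw L ω) := by
      rw [cw_le_iff]
      constructor
      · intro u v huv
        rw [Finset.mem_map] at huv
        obtain ⟨e, he, huv⟩ := huv
        induction e using Sym2.ind with
        | _ a b =>
          rw [emb_mk, Sym2.eq_iff] at huv
          rw [Setoid.comap_rel]
          rcases huv with ⟨rfl, rfl⟩ | ⟨rfl, rfl⟩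
          · rw [Equiv.symm_apply_apply, Equiv.symm_apply_apply]
            exact cw_edge he
          · rw [Equiv.symm_apply_apply, Equiv.symm_apply_apply]
            exact (cw L ω).symm (cw_edge he)
      · intro u v hu hv
        rw [Setoid.comap_rel]
        have h1 := hf' u
        have h2 := hf' v
        exact cw_wall (by omega) (by omega)
    have h2 := hle h
    rw [Setoid.comap_rel, Equiv.symm_apply_apply, Equiv.symm_apply_apply] at h2
    exact h2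
  · intro h
    have hle : cw L ω ≤ Setoid.comap f (cw L' (ω.map (emb f))) := by
      rw [cw_le_iff]
      constructor
      · intro a b hab
        rw [Setoid.comap_rel]
        apply cw_edge
        rw [Finset.mem_map]
        exact ⟨s(a, b), hab, rfl⟩
      · intro a b h1 h2
        rw [Setoid.comap_rel]
        exact cw_wall (by rw [hf]; omega) (by rw [hf]; omega)
    have h2 := hle h
    rw [Setoid.comap_rel] at h2
    exact h2

lemma cw_sh (n1 n2 : ℕ) (ω : Finset (Sym2 (ℤ × ℤ))) (x y : ℤ × ℤ) :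
    cw (2 * ((n1 + n2 + 1 : ℕ) : ℤ) + 1) (ω.map (emb (sh n1))) (sh n1 x) (sh n1 y) ↔
      cw (2 * n2 + 1) ω x y := by
  apply cw_map_iff (c := 2 * n1 + 2)
  · intro z
    rw [sh_apply]
    simp only
    ring
  · push_cast
    ring

lemma map_edge {n1 n2 : ℕ} {b : ℤ} {ω : Finset (Sym2 (ℤ × ℤ))} (h : ω ⊆ edgesIn (reg n2 1 b))
    {u v : ℤ × ℤ} (huv : s(u, v) ∈ ω.map (emb (sh n1))) :
    2 * (n1 : ℤ) + 2 ≤ u.1 + u.2 ∧ 1 ≤ u.1 - u.2 := by
  rw [Finset.mem_map] at huv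
  obtain ⟨e, he, huv⟩ := huv
  induction e using Sym2.ind with
  | _ p q =>
    rw [emb_mk, Sym2.eq_iff] at huv
    rcases huv with ⟨rfl, rfl⟩ | ⟨rfl, rfl⟩
    · have := edge_reg h he
      rw [sh_apply]
      simp only
      omega
    · rw [Sym2.eq_swap] at he
      have := edge_reg h he
      rw [sh_apply]
      simp only
      omega

lemma comap_right (n1 n2 : ℕ) {b : ℤ} {ω : Finset (Sym2 (ℤ × ℤ))} (h : ω ⊆ edgesIn (reg n2 1 b)) :
    Setoid.comap (fr (n1 + n2 + 1) 0) (cw (2 * ((n1 + n2 + 1 : ℕ) : ℤ) + 1) (ω.map (emb (sh n1)))) =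
      IP.Slit.liftR n1 (st (2 * n2 + 1) (fr n2 0) ω) := by
  have hiso : ∀ z : ℤ × ℤ, z.1 + z.2 < 2 * (n1 : ℤ) + 2 → ∀ z',
      cw (2 * ((n1 + n2 + 1 : ℕ) : ℤ) + 1) (ω.map (emb (sh n1))) z z' → z' = z := by
    intro z hz z' hzz
    refine cw_isolated ?_ ?_ hzz
    · intro v hv
      have := map_edge h hv
      omega
    · push_cast
      omega
  have hinj : ∀ x y : ℕ, x ≤ n1 → fr (n1 + n2 + 1) 0 y = fr (n1 + n2 + 1) 0 x → x = y := by
    intro x y hx hxy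
    rw [fr_zero, fr_zero, Prod.mk.injEq] at hxy
    push_cast at hxy
    omega
  have hfr : ∀ x : ℕ, n1 < x → fr (n1 + n2 + 1) 0 x = sh n1 (fr n2 0 (x - n1 - 1)) := by
    intro x hx
    rw [fr_zero, fr_zero, sh_apply]
    simp only
    ext
    · simp only
      push_cast
      omega
    · simp only
      push_cast
      omega
  have hlow : ∀ x : ℕ, x ≤ n1 → (fr (n1 + n2 + 1) 0 x).1 + (fr (n1 + n2 + 1) 0 x).2 < 2 * (n1 : ℤ) + 2 := by
    intro x hx
    rw [fr0_apply (by omega)]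
    simp only
    omega
  ext x y
  rw [Setoid.comap_rel]
  constructor
  · intro hc
    by_cases hx : x ≤ n1
    · exact Or.inl (hinj x y hx (hiso _ (hlow x hx) _ hc))
    · by_cases hy : y ≤ n1
      · exact Or.inl (hinj y x hy (hiso _ (hlow y hy) _ (Setoid.symm' _ hc))).symm
      · refine Or.inr ⟨by omega, by omega, ?_⟩
        rw [hfr x (by omega), hfr y (by omega), cw_sh] at hc
        exact hc
  · rintro (rfl | ⟨hx, hy, hc⟩)
    · exact (cw _ _).refl _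
    · rw [hfr x hx, hfr y hy, cw_sh]
      exact hc

/-! ### gluing -/

lemma sup_isolated {V : Type*} {R1 R2 : Setoid V} {z : V} (h1 : ∀ z', R1 z z' → z' = z)
    (h2 : ∀ z', R2 z z' → z' = z) : ∀ z', (R1 ⊔ R2) z z' → z' = z := by
  intro z' h
  refine IP.PG.closed_sup R1 R2 (fun y => y = z) ?_ ?_ z z' h rfl
  · rintro x y hxy rfl
    exact h1 y hxy
  · rintro x y hxy rfl
    exact h2 y hxy

/-- the connectivity of the glued configuration -/
def gl (n1 n2 : ℕ) (ω0 ω1 ω2 : Finset (Sym2 (ℤ × ℤ))) : Setoid (ℤ × ℤ) :=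
  cw (2 * ((n1 + n2 + 1 : ℕ) : ℤ) + 1) ω0 ⊔ cs (SI (2 * n1 + 1)) ω1 ⊔
    cw (2 * ((n1 + n2 + 1 : ℕ) : ℤ) + 1) (ω2.map (emb (sh n1)))

lemma level_one {n1 n2 : ℕ} {z : ℤ × ℤ} (h0 : 0 ≤ z.1 + z.2)
    (h1 : z.1 + z.2 ≤ 2 * ((n1 + n2 + 1 : ℕ) : ℤ) + 1) (h2 : z.1 - z.2 = 1) :
    z = fr (n1 + n2 + 1) 0 z.2.toNat := by
  rw [fr_zero]
  have e : ((z.2.toNat : ℕ) : ℤ) = z.2 := Int.toNat_of_nonneg (by omega)
  rw [e, min_eq_left (by omega)]
  ext
  · simp only; omega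
  · rfl

theorem comap_gl (n1 n2 : ℕ) {a b : ℤ} {ω0 ω1 ω2 : Finset (Sym2 (ℤ × ℤ))}
    (h0 : ω0 ⊆ edgesIn (reg (n1 + n2 + 1) a 1)) (h1 : ω1 ⊆ edgesIn (reg n1 1 b))
    (h2 : ω2 ⊆ edgesIn (reg n2 1 b)) :
    Setoid.comap (fr (n1 + n2 + 1) 0) (gl n1 n2 ω0 ω1 ω2) =
      st (2 * ((n1 + n2 + 1 : ℕ) : ℤ) + 1) (fr (n1 + n2 + 1) 0) ω0 ⊔
        IP.Slit.liftL n1 (st (2 * n1 + 1) (fr n1 0) ω1) ⊔
        IP.Slit.liftR n1 (st (2 * n2 + 1) (fr n2 0) ω2) := by
  have hwall : (fr (n1 + n2 + 1) 0 (n1 + n2 + 1)).1 + (fr (n1 + n2 + 1) 0 (n1 + n2 + 1)).2 =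
      2 * ((n1 + n2 + 1 : ℕ) : ℤ) + 1 := by
    rw [fr0_apply le_rfl]
    simp only
    ring
  -- the first two pieces
  have step1 : Setoid.comap (fr (n1 + n2 + 1) 0) (cw (2 * ((n1 + n2 + 1 : ℕ) : ℤ) + 1) ω0 ⊔
      cs (SI (2 * n1 + 1)) ω1) = st (2 * ((n1 + n2 + 1 : ℕ) : ℤ) + 1) (fr (n1 + n2 + 1) 0) ω0 ⊔
        IP.Slit.liftL n1 (st (2 * n1 + 1) (fr n1 0) ω1) := by
    rw [IP.PG.comap_sup]
    · apply le_antisymm
      · apply sup_le le_sup_left
        intro x y hxy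
        rw [Setoid.comap_rel, comap_left n1 n2 h1] at hxy
        rcases hxy with hxy | ⟨hx, hy⟩
        · exact (le_sup_right : IP.Slit.liftL n1 (st (2 * n1 + 1) (fr n1 0) ω1) ≤ _) hxy
        · apply (le_sup_left : st (2 * ((n1 + n2 + 1 : ℕ) : ℤ) + 1) (fr (n1 + n2 + 1) 0) ω0 ≤ _)
          show cw _ ω0 (fr (n1 + n2 + 1) 0 x) (fr (n1 + n2 + 1) 0 y)
          rw [fr0_wall hx, fr0_wall hy]
      · apply sup_le le_sup_left
        intro x y hxy
        apply (le_sup_right : Setoid.comap (fr (n1 + n2 + 1) 0) (cs (SI (2 * n1 + 1)) ω1) ≤ _)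
        rw [Setoid.comap_rel, comap_left n1 n2 h1]
        exact Or.inl hxy
    · intro z
      by_cases hw : z.1 + z.2 = 2 * ((n1 + n2 + 1 : ℕ) : ℤ) + 1
      · right; left
        intro z' hz'
        refine cs_isolated ?_ ?_ hz'
        · intro v hv
          have := edge_reg h1 hv
          push_cast at hw
          omega
        · intro hz
          have := hz.1
          push_cast at hw
          omega
      by_cases g0 : ∀ u, s(z, u) ∉ ω0
      · exact Or.inl fun z' hz' => cw_isolated g0 hw hz'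
      by_cases g1 : (∀ u, s(z, u) ∉ ω1) ∧ z ∉ SI (2 * n1 + 1)
      · exact Or.inr (Or.inl fun z' hz' => cs_isolated g1.1 g1.2 hz')
      right; right
      push Not at g0
      obtain ⟨u, hu⟩ := g0
      have m0 := edge_reg h0 hu
      have m1 : 1 ≤ z.1 - z.2 := by
        by_cases g2 : ∀ u, s(z, u) ∉ ω1
        · by_contra hlt
          exact g1 ⟨g2, fun hz => hlt hz.2⟩
        · push Not at g2
          obtain ⟨v, hv⟩ := g2
          exact (edge_reg h1 hv).2.2.1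
      have hz := level_one (n1 := n1) (n2 := n2) m0.1 m0.2.1 (by omega)
      refine ⟨z.2.toNat, ?_, ?_⟩
      · rw [← hz]
      · rw [← hz]
  have step2 : Setoid.comap (fr (n1 + n2 + 1) 0) (gl n1 n2 ω0 ω1 ω2) =
      Setoid.comap (fr (n1 + n2 + 1) 0) (cw (2 * ((n1 + n2 + 1 : ℕ) : ℤ) + 1) ω0 ⊔
        cs (SI (2 * n1 + 1)) ω1) ⊔
      Setoid.comap (fr (n1 + n2 + 1) 0) (cw (2 * ((n1 + n2 + 1 : ℕ) : ℤ) + 1) (ω2.map (emb (sh n1)))) := by
    unfold gl
    apply IP.PG.comap_sup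
    intro z
    by_cases hw : z.1 + z.2 = 2 * ((n1 + n2 + 1 : ℕ) : ℤ) + 1
    · right; right
      refine ⟨n1 + n2 + 1, ?_, ?_⟩
      · exact (le_sup_left : cw (2 * ((n1 + n2 + 1 : ℕ) : ℤ) + 1) ω0 ≤ _) (cw_wall hw hwall)
      · exact cw_wall hw hwall
    by_cases g2 : ∀ u, s(z, u) ∉ ω2.map (emb (sh n1))
    · exact Or.inr (Or.inl fun z' hz' => cw_isolated g2 hw hz')
    push Not at g2
    obtain ⟨v, hv⟩ := g2
    have m2 := map_edge h2 hv
    have m2' : z.1 + z.2 ≤ 2 * ((n1 + n2 + 1 : ℕ) : ℤ) + 1 := by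
      rw [Finset.mem_map] at hv
      obtain ⟨e, he, hv⟩ := hv
      induction e using Sym2.ind with
      | _ p q =>
        rw [emb_mk, Sym2.eq_iff] at hv
        rcases hv with ⟨rfl, rfl⟩ | ⟨rfl, rfl⟩
        · have := edge_reg h2 he
          rw [sh_apply]
          simp only
          push_cast
          omega
        · rw [Sym2.eq_swap] at he
          have := edge_reg h2 he
          rw [sh_apply]
          simp only
          push_cast
          omega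
    by_cases g0 : ∀ u, s(z, u) ∉ ω0
    · left
      apply sup_isolated
      · exact fun z' hz' => cw_isolated g0 hw hz'
      · intro z' hz'
        refine cs_isolated ?_ ?_ hz'
        · intro v hv
          have := edge_reg h1 hv
          omega
        · intro hz
          have := hz.1
          omega
    · push Not at g0
      obtain ⟨u, hu⟩ := g0
      have m0 := edge_reg h0 hu
      have hz := level_one (n1 := n1) (n2 := n2) (by omega) m2' (by omega)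
      right; right
      refine ⟨z.2.toNat, ?_, ?_⟩
      · rw [← hz]
      · rw [← hz]
  rw [step2, step1, comap_right n1 n2 h2]

/-! ### the crossing event -/

/-- some vertex of the left side of the slit (line `u = i`, heights `w ≥ 1`) is joined to the line
`u = L` -/
def Cr (L i : ℤ) (ω : Finset (Sym2 (ℤ × ℤ))) : Prop :=
  ∃ z z' : ℤ × ℤ, z.1 + z.2 = i ∧ 1 ≤ z.1 - z.2 ∧ z'.1 + z'.2 = L ∧ Joined ω z z'

lemma gl_of_joined {n1 n2 : ℕ} {ω0 ω1 ω2 : Finset (Sym2 (ℤ × ℤ))} {u v : ℤ × ℤ}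
    (h : Joined (ω0 ∪ ω1 ∪ ω2.map (emb (sh n1))) u v) : gl n1 n2 ω0 ω1 ω2 u v := by
  obtain ⟨p⟩ := h
  induction p with
  | nil => exact (gl _ _ _ _ _).refl _
  | @cons a b c hab p ih =>
    rw [SimpleGraph.fromEdgeSet_adj] at hab
    have hab1 : s(a, b) ∈ ω0 ∪ ω1 ∪ ω2.map (emb (sh n1)) := by exact_mod_cast hab.1
    refine (gl _ _ _ _ _).trans ?_ ih
    rw [mem_union, mem_union] at hab1
    rcases hab1 with (h1 | h1) | h1
    · exact (le_sup_left.trans le_sup_left : cw (2 * ((n1 + n2 + 1 : ℕ) : ℤ) + 1) ω0 ≤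
        gl n1 n2 ω0 ω1 ω2) (cw_edge h1)
    · exact (le_sup_right.trans le_sup_left : cs (SI (2 * n1 + 1)) ω1 ≤
        gl n1 n2 ω0 ω1 ω2) (cs_edge h1)
    · exact (le_sup_right : cw (2 * ((n1 + n2 + 1 : ℕ) : ℤ) + 1) (ω2.map (emb (sh n1))) ≤
        gl n1 n2 ω0 ω1 ω2) (cw_edge h1)

theorem cr_iff (n1 n2 : ℕ) (ω0 ω1 ω2 : Finset (Sym2 (ℤ × ℤ))) :
    Cr (2 * ((n1 + n2 + 1 : ℕ) : ℤ) + 1) (2 * n1 + 1) (ω0 ∪ ω1 ∪ ω2.map (emb (sh n1))) ↔
      gl n1 n2 ω0 ω1 ω2 (fr (n1 + n2 + 1) 0 n1) (fr (n1 + n2 + 1) 0 (n1 + n2 + 1)) := by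
  set ω := ω0 ∪ ω1 ∪ ω2.map (emb (sh n1)) with hω
  have hn1 : fr (n1 + n2 + 1) 0 n1 ∈ SI (2 * n1 + 1) := by
    rw [fr0_apply (by omega), mem_SI]
    simp only
    omega
  have hn : (fr (n1 + n2 + 1) 0 (n1 + n2 + 1)).1 + (fr (n1 + n2 + 1) 0 (n1 + n2 + 1)).2 =
      2 * ((n1 + n2 + 1 : ℕ) : ℤ) + 1 := by
    rw [fr0_apply le_rfl]
    simp only
    ring
  constructor
  · rintro ⟨z, z', h1, h2, h3, h4⟩
    have g1 : gl n1 n2 ω0 ω1 ω2 (fr (n1 + n2 + 1) 0 n1) z :=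
      (le_sup_right.trans le_sup_left : cs (SI (2 * n1 + 1)) ω1 ≤ gl n1 n2 ω0 ω1 ω2)
        (cs_wall hn1 ⟨h1, h2⟩)
    have g2 : gl n1 n2 ω0 ω1 ω2 z' (fr (n1 + n2 + 1) 0 (n1 + n2 + 1)) :=
      (le_sup_left.trans le_sup_left : cw (2 * ((n1 + n2 + 1 : ℕ) : ℤ) + 1) ω0 ≤ gl n1 n2 ω0 ω1 ω2)
        (cw_wall h3 hn)
    exact (gl _ _ _ _ _).trans g1 ((gl _ _ _ _ _).trans (gl_of_joined h4) g2)
  · intro h
    set Q : ℤ × ℤ → Prop := fun z => (∃ p ∈ SI (2 * n1 + 1), Joined ω p z) ∨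
      Cr (2 * ((n1 + n2 + 1 : ℕ) : ℤ) + 1) (2 * n1 + 1) ω with hQ
    have hwall : ∀ u v : ℤ × ℤ, u.1 + u.2 = 2 * ((n1 + n2 + 1 : ℕ) : ℤ) + 1 → Q u → Q v := by
      rintro u v hu (⟨p, hp, hj⟩ | hc)
      · exact Or.inr ⟨p, u, hp.1, hp.2, hu, hj⟩
      · exact Or.inr hc
    have hedge : ∀ u v : ℤ × ℤ, s(u, v) ∈ ω → Q u → Q v := by
      rintro u v huv (⟨p, hp, hj⟩ | hc)
      · exact Or.inl ⟨p, hp, joined_trans hj (joined_edge huv)⟩
      · exact Or.inr hc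
    have hle : gl n1 n2 ω0 ω1 ω2 ≤ Setoid.comap Q ⟨Eq, eq_equivalence⟩ := by
      refine sup_le (sup_le ?_ ?_) ?_
      · rw [cw_le_iff]
        constructor
        · intro u v huv
          rw [Setoid.comap_rel]
          have h1 : s(u, v) ∈ ω := by
            rw [hω, mem_union, mem_union]
            exact Or.inl (Or.inl huv)
          have h2 : s(v, u) ∈ ω := by
            rw [Sym2.eq_swap]
            exact h1
          exact propext ⟨hedge u v h1, hedge v u h2⟩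
        · intro u v hu hv
          rw [Setoid.comap_rel]
          exact propext ⟨hwall u v hu, hwall v u hv⟩
      · rw [cs_le_iff]
        constructor
        · intro u v huv
          rw [Setoid.comap_rel]
          have h1 : s(u, v) ∈ ω := by
            rw [hω, mem_union, mem_union]
            exact Or.inl (Or.inr huv)
          have h2 : s(v, u) ∈ ω := by
            rw [Sym2.eq_swap]
            exact h1
          exact propext ⟨hedge u v h1, hedge v u h2⟩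
        · intro u v hu hv
          rw [Setoid.comap_rel]
          exact propext ⟨fun _ => Or.inl ⟨v, hv, joined_refl _ _⟩,
            fun _ => Or.inl ⟨u, hu, joined_refl _ _⟩⟩
      · rw [cw_le_iff]
        constructor
        · intro u v huv
          rw [Setoid.comap_rel]
          have h1 : s(u, v) ∈ ω := by
            rw [hω, mem_union, mem_union]
            exact Or.inr huv
          have h2 : s(v, u) ∈ ω := by
            rw [Sym2.eq_swap]
            exact h1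
          exact propext ⟨hedge u v h1, hedge v u h2⟩
        · intro u v hu hv
          rw [Setoid.comap_rel]
          exact propext ⟨hwall u v hu, hwall v u hv⟩
    have h2 := hle h
    rw [Setoid.comap_rel] at h2
    have h3 : Q (fr (n1 + n2 + 1) 0 (n1 + n2 + 1)) :=
      (show Q (fr (n1 + n2 + 1) 0 n1) = Q (fr (n1 + n2 + 1) 0 (n1 + n2 + 1)) from h2) ▸
        Or.inl ⟨_, hn1, joined_refl _ _⟩
    rcases h3 with ⟨p, hp, hj⟩ | hc
    · exact ⟨p, _, hp.1, hp.2, hn, hj⟩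
    · exact hc

/-- the crossing event in terms of the three states -/
theorem cr_iff_cross (n1 n2 : ℕ) {a b : ℤ} {ω0 ω1 ω2 : Finset (Sym2 (ℤ × ℤ))}
    (h0 : ω0 ⊆ edgesIn (reg (n1 + n2 + 1) a 1)) (h1 : ω1 ⊆ edgesIn (reg n1 1 b))
    (h2 : ω2 ⊆ edgesIn (reg n2 1 b)) :
    Cr (2 * ((n1 + n2 + 1 : ℕ) : ℤ) + 1) (2 * n1 + 1) (ω0 ∪ ω1 ∪ ω2.map (emb (sh n1))) ↔
      IP.Slit.cross n1 n2 (st (2 * n1 + 1) (fr n1 0) ω1) (st (2 * n2 + 1) (fr n2 0) ω2)
        (st (2 * ((n1 + n2 + 1 : ℕ) : ℤ) + 1) (fr (n1 + n2 + 1) 0) ω0) := by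
  rw [cr_iff]
  unfold IP.Slit.cross
  rw [← comap_gl n1 n2 h0 h1 h2]
  exact Iff.rfl

end H47Perc.SL
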