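import Pool.Agent.Helper53.Slit.FinalD
import Pool.Agent.Helper60.Slit.Value
import Pool.Agent.Helper15.Slit.Conf

/-!
Slit strips: the complete statement (all pieces put together).
-/

set_option autoImplicit false

namespace H47Perc.SL
open H47Perc H47Perc.DS

theorem triUrn : TriUrn := by
  intro n1 n2
  have h := IP.Slit.tri_value n1 n2
  rw [show 2 * (n1 + n2) + 3 = 2 * (n1 + n2 + 1) + 1 by ring] at h
  exact h

/-- both parts with the same constants -/
theorem slit_main : ∃ c C : ℝ, 0 < c ∧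
    (∀ L i M : ℕ, Odd L → Odd i → i < L →
      |pSlit L i M - Slit.urn L i| ≤ C * Real.exp (-(c * (M / L)))) ∧
    ∀ a : ℝ, 0 < a → a < 1 → ∀ ε : ℝ, 0 < ε → ∃ δ : ℝ, 0 < δ ∧ ∃ L₀ : ℕ, ∀ L i M : ℕ,
      L₀ ≤ L → |(i : ℝ) / L - a| < δ →
        |pSlit L i M - Slit.cardy a| ≤ ε + C * Real.exp (-(c * (M / L))) := by
  obtain ⟨c, hc, C, hC, h1⟩ := pSlit_bound triUrn
  obtain ⟨c', C', hc', h2⟩ := pSlit_uniform triUrn
  have key : ∀ {b b' B B' x : ℝ}, 0 ≤ x → b ≤ b' → |B| ≤ B' →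
      B * Real.exp (-(b' * x)) ≤ B' * Real.exp (-(b * x)) := by
    intro b b' B B' x hx hb hB
    have e1 : Real.exp (-(b' * x)) ≤ Real.exp (-(b * x)) :=
      Real.exp_le_exp.2 (by nlinarith)
    calc B * Real.exp (-(b' * x)) ≤ |B| * Real.exp (-(b' * x)) :=
          mul_le_mul_of_nonneg_right (le_abs_self B) (Real.exp_pos _).le
      _ ≤ B' * Real.exp (-(b * x)) :=
          mul_le_mul hB e1 (Real.exp_pos _).le ((abs_nonneg B).trans hB)
  refine ⟨min c c', max |C| |C'|, lt_min hc hc', ?_, ?_⟩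
  · intro L i M hL hi hiL
    exact (h1 L i M hL hi hiL).trans (key (by positivity) (min_le_left _ _) (le_max_left _ _))
  · intro a ha0 ha1 ε hε
    obtain ⟨δ, hδ, L₀, h3⟩ := h2 a ha0 ha1 ε hε
    refine ⟨δ, hδ, L₀, fun L i M hL hi => ?_⟩
    have := key (x := (M : ℝ) / L) (by positivity) (min_le_right c c') (le_max_right |C| |C'|)
    have := h3 L i M hL hi
    linarith

end H47Perc.SL
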