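import Pool.Agent.Helper92.Bulk.AnnFull
import Pool.Agent.Helper72.Slit.Trunc

/-!
The one-arm probability tends to zero (by RSW).
-/

set_option autoImplicit false

namespace H47Perc.SL
open Finset Filter Topology SimpleGraph H47Perc
open Pool.Agent.Helper69.RSW (Up P_restrict P_congr P_mono Dep P P_compl P_indep
  P_nonneg P_le_one P_or_le P_true P_add_of_disjoint harris perc_half_eq)

lemma or_up {E : Type*} [DecidableEq E] (F : Finset E) {A B : Finset E → Prop} (hA : Up A)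
    (hB : Up B) : (1 - P F A) * (1 - P F B) ≤ 1 - P F (fun S => A S ∨ B S) := by
  have h1 : P F (fun S => A S ∨ B S) = P F A + P F (fun S => ¬ A S ∧ B S) := by
    rw [← P_add_of_disjoint F A (fun S => ¬ A S ∧ B S) (fun S _ h => h.2.1 h.1)]
    apply P_congr
    intro S _
    by_cases h : A S <;> simp [h]
  have h2 : P F B = P F (fun S => A S ∧ B S) + P F (fun S => ¬ A S ∧ B S) := by
    rw [← P_add_of_disjoint F (fun S => A S ∧ B S) (fun S => ¬ A S ∧ B S) (fun S _ h => h.2.1 h.1.1)]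
    apply P_congr
    intro S _
    by_cases h : A S <;> simp [h]
  have h3 := harris F hA hB
  nlinarith

lemma up_or {E : Type*} {A B : Finset E → Prop} (hA : Up A) (hB : Up B) :
    Up (fun S => A S ∨ B S) := by
  rintro S T h (h1 | h1)
  · exact Or.inl (hA _ _ h h1)
  · exact Or.inr (hB _ _ h h1)

/-- one of the four rectangles around the origin is crossed in the short direction -/
def Cr4 (m : ℤ) (ω : Finset (Sym2 (ℤ × ℤ))) : Prop :=
  (LR m (3 * m) (-(3 * m)) (3 * m) (ω ∩ edgesIn (box m (3 * m) (-(3 * m)) (3 * m))) ∨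
    LR (-(3 * m)) (-m) (-(3 * m)) (3 * m) (ω ∩ edgesIn (box (-(3 * m)) (-m) (-(3 * m)) (3 * m)))) ∨
  (BT (-(3 * m)) (3 * m) m (3 * m) (ω ∩ edgesIn (box (-(3 * m)) (3 * m) m (3 * m))) ∨
    BT (-(3 * m)) (3 * m) (-(3 * m)) (-m) (ω ∩ edgesIn (box (-(3 * m)) (3 * m) (-(3 * m)) (-m))))

lemma cr4_of_cross {m : ℤ} (hm : 1 ≤ m) {ω : Finset (Sym2 (ℤ × ℤ))}
    (hω : ω ⊆ edgesIn (fullAnn m (3 * m))) (h : Cross m (3 * m) ω) : Cr4 m ω := by
  obtain ⟨u, z, h1, h2, h3⟩ := h
  have hu : |u.1| ≤ m ∧ |u.2| ≤ m := nrm_le.1 (by omega)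
  have hz : |z.1| ≤ 3 * m ∧ |z.2| ≤ 3 * m := nrm_le.1 (by omega)
  have hz2 : 3 * m ≤ |z.1| ∨ 3 * m ≤ |z.2| := le_nrm.1 (by omega)
  rw [abs_le, abs_le] at hu hz
  have hb : ∀ w : ℤ × ℤ, w ∈ fullAnn m (3 * m) → (-(3 * m) ≤ w.1 ∧ w.1 ≤ 3 * m) ∧
      (-(3 * m) ≤ w.2 ∧ w.2 ≤ 3 * m) := by
    intro w hw
    rw [mem_fullAnn, nrm_le, abs_le, abs_le] at hw
    exact hw.2
  have hcase : z.1 = 3 * m ∨ z.1 = -(3 * m) ∨ z.2 = 3 * m ∨ z.2 = -(3 * m) := by
    rcases hz2 with h | h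
    · rcases abs_cases z.1 with h' | h' <;> omega
    · rcases abs_cases z.2 with h' | h' <;> omega
  have key : ∀ T B : Finset (ℤ × ℤ), z ∈ T → u ∉ T → T ⊆ B →
      (∀ w w' : ℤ × ℤ, w ∈ T → w' ∉ T → w' ∈ fullAnn m (3 * m) → lattice.Adj w w' → w' ∈ B) →
      ∃ w' : ℤ × ℤ, w' ∉ T ∧ (∃ w ∈ T, lattice.Adj w w') ∧ w' ∈ fullAnn m (3 * m) ∧
        Joined (ω ∩ edgesIn B) w' z := by
    intro T B hzT huT hTB hB
    obtain ⟨w, w', w1, w2, w3, w4, w5, w6⟩ := joined_exit hω (joined_symm h3) hzT huT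
    refine ⟨w', w2, ⟨w, w1, w4⟩, w3, ?_⟩
    refine joined_trans (v := w) (joined_symm (joined_edge ?_)) (joined_symm (joined_mono ?_ w6))
    · rw [mem_inter, mem_edgesIn]
      exact ⟨w5, hTB w1, hB w w' w1 w2 w3 w4, w4⟩
    · intro e he
      rw [mem_inter] at he ⊢
      exact ⟨he.1, edgesIn_mono hTB he.2⟩
  unfold Cr4
  rcases hcase with hc | hc | hc | hc
  · left; left
    obtain ⟨w', g1, ⟨w, g2, g3⟩, g4, g5⟩ := key (box (m + 1) (3 * m) (-(3 * m)) (3 * m))
      (box m (3 * m) (-(3 * m)) (3 * m)) (by rw [mem_box]; omega) (by rw [mem_box]; omega)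
      (box_mono (by omega) le_rfl le_rfl le_rfl) (by
        intro w w' e1 e2 e3 e4
        have e5 := hb w' e3
        have e6 := adj_dist e4
        rw [abs_le, abs_le] at e6
        rw [mem_box] at e1 e2 ⊢
        omega)
    have e5 := hb w' g4
    have e6 := adj_dist g3
    rw [abs_le, abs_le] at e6
    rw [mem_box] at g1 g2
    refine ⟨w'.2, z.2, by omega, by omega, by omega, by omega, ?_⟩
    have q1 : w' = (m, w'.2) := Prod.ext (by show w'.1 = m; omega) rfl
    have q2 : z = (3 * m, z.2) := Prod.ext hc rfl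
    rw [← q1, ← q2]
    exact g5
  · left; right
    obtain ⟨w', g1, ⟨w, g2, g3⟩, g4, g5⟩ := key (box (-(3 * m)) (-m - 1) (-(3 * m)) (3 * m))
      (box (-(3 * m)) (-m) (-(3 * m)) (3 * m)) (by rw [mem_box]; omega) (by rw [mem_box]; omega)
      (box_mono le_rfl (by omega) le_rfl le_rfl) (by
        intro w w' e1 e2 e3 e4
        have e5 := hb w' e3
        have e6 := adj_dist e4
        rw [abs_le, abs_le] at e6
        rw [mem_box] at e1 e2 ⊢
        omega)
    have e5 := hb w' g4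
    have e6 := adj_dist g3
    rw [abs_le, abs_le] at e6
    rw [mem_box] at g1 g2
    refine ⟨z.2, w'.2, by omega, by omega, by omega, by omega, ?_⟩
    have q1 : w' = (-m, w'.2) := Prod.ext (by show w'.1 = -m; omega) rfl
    have q2 : z = (-(3 * m), z.2) := Prod.ext hc rfl
    rw [← q1, ← q2]
    exact joined_symm g5
  · right; left
    obtain ⟨w', g1, ⟨w, g2, g3⟩, g4, g5⟩ := key (box (-(3 * m)) (3 * m) (m + 1) (3 * m))
      (box (-(3 * m)) (3 * m) m (3 * m)) (by rw [mem_box]; omega) (by rw [mem_box]; omega)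
      (box_mono le_rfl le_rfl (by omega) le_rfl) (by
        intro w w' e1 e2 e3 e4
        have e5 := hb w' e3
        have e6 := adj_dist e4
        rw [abs_le, abs_le] at e6
        rw [mem_box] at e1 e2 ⊢
        omega)
    have e5 := hb w' g4
    have e6 := adj_dist g3
    rw [abs_le, abs_le] at e6
    rw [mem_box] at g1 g2
    refine ⟨w'.1, z.1, by omega, by omega, by omega, by omega, ?_⟩
    have q1 : w' = (w'.1, m) := Prod.ext rfl (by show w'.2 = m; omega)
    have q2 : z = (z.1, 3 * m) := Prod.ext rfl hc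
    rw [← q1, ← q2]
    exact g5
  · right; right
    obtain ⟨w', g1, ⟨w, g2, g3⟩, g4, g5⟩ := key (box (-(3 * m)) (3 * m) (-(3 * m)) (-m - 1))
      (box (-(3 * m)) (3 * m) (-(3 * m)) (-m)) (by rw [mem_box]; omega) (by rw [mem_box]; omega)
      (box_mono le_rfl le_rfl le_rfl (by omega)) (by
        intro w w' e1 e2 e3 e4
        have e5 := hb w' e3
        have e6 := adj_dist e4
        rw [abs_le, abs_le] at e6
        rw [mem_box] at e1 e2 ⊢
        omega)
    have e5 := hb w' g4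
    have e6 := adj_dist g3
    rw [abs_le, abs_le] at e6
    rw [mem_box] at g1 g2
    refine ⟨z.1, w'.1, by omega, by omega, by omega, by omega, ?_⟩
    have q1 : w' = (w'.1, -m) := Prod.ext rfl (by show w'.2 = -m; omega)
    have q2 : z = (z.1, -(3 * m)) := Prod.ext rfl hc
    rw [← q1, ← q2]
    exact joined_symm g5

lemma up_inter_LR (a b c d : ℤ) (F : Finset (Sym2 (ℤ × ℤ))) :
    Up (fun ω : Finset (Sym2 (ℤ × ℤ)) => LR a b c d (ω ∩ F)) := by
  rintro ω ω' h ⟨y, y', h1, h2, h3, h4, h5⟩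
  exact ⟨y, y', h1, h2, h3, h4, joined_mono (inter_subset_inter_right h) h5⟩

lemma up_inter_BT (a b c d : ℤ) (F : Finset (Sym2 (ℤ × ℤ))) :
    Up (fun ω : Finset (Sym2 (ℤ × ℤ)) => BT a b c d (ω ∩ F)) := by
  rintro ω ω' h ⟨y, y', h1, h2, h3, h4, h5⟩
  exact ⟨y, y', h1, h2, h3, h4, joined_mono (inter_subset_inter_right h) h5⟩

lemma short_le {c : ℝ} (h : ∀ n : ℕ, 1 ≤ n → c ≤ pLR (((7 : ℕ) : ℤ) * n) n) {m : ℤ} (hm : 1 ≤ m) :
    pLR (2 * m) (6 * m) ≤ 1 - c := by
  classical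
  obtain ⟨k, hk⟩ := Int.eq_ofNat_of_zero_le (show 0 ≤ 2 * m - 1 by omega)
  have h1 := h k (by omega)
  have h2 : pLR (((7 : ℕ) : ℤ) * k) k ≤ pLR (6 * m + 1) k := by
    apply pLR_anti (by omega)
    push_cast
    omega
  have h3 := P_LR_le (x0 := 0) (x1 := 2 * m) (y0 := 0) (y1 := 6 * m)
    (F := edgesIn (box 0 (2 * m) (0 - 1) (6 * m + 1))) subset_rfl (by omega) (by omega)
  have h4 : pLR (2 * m) (6 * m) = P (edgesIn (box 0 (2 * m) (0 - 1) (6 * m + 1)))
      (fun ω => LR 0 (2 * m) 0 (6 * m) (ω ∩ edgesIn (box 0 (2 * m) 0 (6 * m)))) := by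
    unfold pLR
    rw [perc_half_eq]
    have hsub : edgesIn (box 0 (2 * m) 0 (6 * m)) ⊆ edgesIn (box 0 (2 * m) (0 - 1) (6 * m + 1)) :=
      edgesIn_mono (box_mono le_rfl le_rfl (by omega) (by omega))
    have hD : Dep (edgesIn (box 0 (2 * m) 0 (6 * m)))
        (fun ω => LR 0 (2 * m) 0 (6 * m) (ω ∩ edgesIn (box 0 (2 * m) 0 (6 * m)))) := by
      intro S
      simp only [inter_assoc, inter_self]
    rw [P_restrict hsub hD]
    apply P_congr
    intro S hS
    rw [inter_eq_left.2 hS]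
  rw [h4]
  refine h3.trans ?_
  rw [show 6 * m - 0 + 1 = 6 * m + 1 by ring, show 2 * m - 1 - 0 = (k : ℤ) by omega]
  linarith

/-- annuli are crossed with probability bounded away from one -/
theorem crF_le : ∃ q : ℝ, 0 < q ∧ q ≤ 1 ∧ ∀ m : ℕ, 1 ≤ m → crF m (3 * m) ≤ 1 - q := by
  classical
  obtain ⟨c, hc, h⟩ := H46.rsw_pLR 7
  refine ⟨(min c 1) ^ 4, by positivity, ?_, ?_⟩
  · exact pow_le_one₀ (by positivity) (min_le_right _ _)
  intro m hm
  set d := min c 1 with hd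
  have hd0 : 0 < d := by positivity
  have hd1 : d ≤ 1 := min_le_right _ _
  have hs : pLR (2 * (m : ℤ)) (6 * m) ≤ 1 - d :=
    short_le (fun n hn => (min_le_left c 1).trans (h n hn)) (by omega)
  set M : ℤ := (m : ℤ) with hM
  set F := edgesIn (box (-(3 * M)) (3 * M) (-(3 * M)) (3 * M)) with hF
  have one : ∀ a b c' d' : ℤ, -(3 * M) ≤ a → b ≤ 3 * M → -(3 * M) ≤ c' → d' ≤ 3 * M →
      b - a = 2 * M → d' - c' = 6 * M →
      P F (fun ω => LR a b c' d' (ω ∩ edgesIn (box a b c' d'))) ≤ 1 - d := by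
    intro a b c' d' e1 e2 e3 e4 e5 e6
    have hsub : edgesIn (box a b c' d') ⊆ F := edgesIn_mono (box_mono e1 e2 e3 e4)
    have hD : Dep (edgesIn (box a b c' d')) (fun ω => LR a b c' d' (ω ∩ edgesIn (box a b c' d'))) := by
      intro S
      simp only [inter_assoc, inter_self]
    have e7 := perc_LR a b c' d'
    rw [perc_half_eq, e5, e6] at e7
    rw [P_restrict hsub hD]
    refine le_trans (le_of_eq ?_) hs
    rw [← e7]
    apply P_congr
    intro S hS
    rw [inter_eq_left.2 hS]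
  have two : ∀ a b c' d' : ℤ, -(3 * M) ≤ a → b ≤ 3 * M → -(3 * M) ≤ c' → d' ≤ 3 * M →
      b - a = 6 * M → d' - c' = 2 * M →
      P F (fun ω => BT a b c' d' (ω ∩ edgesIn (box a b c' d'))) ≤ 1 - d := by
    intro a b c' d' e1 e2 e3 e4 e5 e6
    have hsub : edgesIn (box a b c' d') ⊆ F := edgesIn_mono (box_mono e1 e2 e3 e4)
    have hD : Dep (edgesIn (box a b c' d')) (fun ω => BT a b c' d' (ω ∩ edgesIn (box a b c' d'))) := by
      intro S
      simp only [inter_assoc, inter_self]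
    have e7 := perc_BT a b c' d'
    rw [perc_half_eq, e5, e6] at e7
    rw [P_restrict hsub hD]
    refine le_trans (le_of_eq ?_) hs
    rw [← e7]
    apply P_congr
    intro S hS
    rw [inter_eq_left.2 hS]
  have p1 := one M (3 * M) (-(3 * M)) (3 * M) (by omega) (by omega) (by omega) (by omega) (by ring)
    (by ring)
  have p2 := one (-(3 * M)) (-M) (-(3 * M)) (3 * M) (by omega) (by omega) (by omega) (by omega)
    (by ring) (by ring)
  have p3 := two (-(3 * M)) (3 * M) M (3 * M) (by omega) (by omega) (by omega) (by omega) (by ring)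
    (by ring)
  have p4 := two (-(3 * M)) (3 * M) (-(3 * M)) (-M) (by omega) (by omega) (by omega) (by omega)
    (by ring) (by ring)
  have o1 := or_up F (up_inter_LR M (3 * M) (-(3 * M)) (3 * M) (edgesIn (box M (3 * M) (-(3 * M)) (3 * M))))
    (up_inter_LR (-(3 * M)) (-M) (-(3 * M)) (3 * M) (edgesIn (box (-(3 * M)) (-M) (-(3 * M)) (3 * M))))
  have o2 := or_up F (up_inter_BT (-(3 * M)) (3 * M) M (3 * M) (edgesIn (box (-(3 * M)) (3 * M) M (3 * M))))
    (up_inter_BT (-(3 * M)) (3 * M) (-(3 * M)) (-M) (edgesIn (box (-(3 * M)) (3 * M) (-(3 * M)) (-M))))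
  have o3 := or_up F
    (up_or (up_inter_LR M (3 * M) (-(3 * M)) (3 * M) (edgesIn (box M (3 * M) (-(3 * M)) (3 * M))))
      (up_inter_LR (-(3 * M)) (-M) (-(3 * M)) (3 * M) (edgesIn (box (-(3 * M)) (-M) (-(3 * M)) (3 * M)))))
    (up_or (up_inter_BT (-(3 * M)) (3 * M) M (3 * M) (edgesIn (box (-(3 * M)) (3 * M) M (3 * M))))
      (up_inter_BT (-(3 * M)) (3 * M) (-(3 * M)) (-M) (edgesIn (box (-(3 * M)) (3 * M) (-(3 * M)) (-M)))))
  have q1 : d * d ≤ 1 - P F (fun ω => LR M (3 * M) (-(3 * M)) (3 * M) (ω ∩ edgesIn (box M (3 * M) (-(3 * M)) (3 * M))) ∨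
      LR (-(3 * M)) (-M) (-(3 * M)) (3 * M) (ω ∩ edgesIn (box (-(3 * M)) (-M) (-(3 * M)) (3 * M)))) := by
    refine le_trans ?_ o1
    apply mul_le_mul <;> linarith
  have q2 : d * d ≤ 1 - P F (fun ω => BT (-(3 * M)) (3 * M) M (3 * M) (ω ∩ edgesIn (box (-(3 * M)) (3 * M) M (3 * M))) ∨
      BT (-(3 * M)) (3 * M) (-(3 * M)) (-M) (ω ∩ edgesIn (box (-(3 * M)) (3 * M) (-(3 * M)) (-M)))) := by
    refine le_trans ?_ o2
    apply mul_le_mul <;> linarith
  have q3 : d ^ 4 ≤ 1 - P F (Cr4 M) := by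
    refine le_trans ?_ o3
    have : d ^ 4 = (d * d) * (d * d) := by ring
    rw [this]
    apply mul_le_mul q1 q2 (by positivity)
    have := mul_pos hd0 hd0
    linarith
  have hsubA : edgesIn (fullAnn M (3 * M)) ⊆ F := by
    apply edgesIn_mono
    unfold fullAnn
    exact filter_subset _ _
  have hUp : Up (Cr4 M) := up_or (up_or (up_inter_LR _ _ _ _ _) (up_inter_LR _ _ _ _ _))
    (up_or (up_inter_BT _ _ _ _ _) (up_inter_BT _ _ _ _ _))
  have e1 : crF m (3 * m) ≤ P F (Cr4 M) := by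
    unfold crF
    rw [perc_half_eq]
    push_cast
    refine (P_mono fun S hS hc => cr4_of_cross (by omega) hS hc).trans ?_
    exact P_enlarge hsubA hUp
  linarith

/-- the one-arm probability tends to zero -/
theorem pi1_tendsto : Tendsto pi1 atTop (𝓝 0) := by
  obtain ⟨q, hq, hq1, h⟩ := crF_le
  have h1 : ∀ k : ℕ, ∃ n : ℕ, pi1 n ≤ (1 - q) ^ k := by
    intro k
    induction k with
    | zero => exact ⟨0, by simpa using pi1_le_one 0⟩
    | succ k ih =>
      obtain ⟨n, hn⟩ := ih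
      refine ⟨3 * (n + 1), ?_⟩
      have h2 := pi1_le_mul (m := n + 1) (n := 3 * (n + 1)) (by omega) (by omega)
      rw [Nat.add_sub_cancel] at h2
      calc pi1 (3 * (n + 1)) ≤ pi1 n * crF (n + 1) (3 * (n + 1)) := h2
        _ ≤ (1 - q) ^ k * (1 - q) := by
            apply mul_le_mul hn (h (n + 1) (by omega)) (crF_nonneg _ _)
            exact pow_nonneg (by linarith) _
        _ = _ := (pow_succ _ _).symm
  rw [Metric.tendsto_atTop]
  intro ε hε
  obtain ⟨k, hk⟩ := exists_pow_lt_of_lt_one hε (show 1 - q < 1 by linarith)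
  obtain ⟨n, hn⟩ := h1 k
  refine ⟨n, fun n' hn' => ?_⟩
  rw [Real.dist_eq, sub_zero, abs_of_nonneg (pi1_nonneg _)]
  exact ((pi1_anti hn').trans hn).trans_lt hk

end H47Perc.SL
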