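import Pool.Agent.Helper53.Slit.Geo

/-!
The crossing probability of the slit strip is the trilinear form of the stationary vectors.
-/

set_option autoImplicit false

namespace H47Perc.SL
open Finset Filter Topology SimpleGraph H47Perc.DS
open Pool.Agent.Helper69.RSW (Up perc_half_eq P_restrict P_congr P_mono Dep P)

/-- the edges across the slit: they join the lines `u = i` and `u = i+1` at heights `w ≥ 1` -/
def Cut (i : ℤ) (e : Sym2 (ℤ × ℤ)) : Prop := ∃ u v : ℤ × ℤ, e = s(u, v) ∧ u.1 + u.2 = i ∧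
  v.1 + v.2 = i + 1 ∧ 1 ≤ u.1 - u.2 ∧ 1 ≤ v.1 - v.2

lemma cut_mk {i : ℤ} {u v : ℤ × ℤ} : Cut i s(u, v) ↔
    (u.1 + u.2 = i ∧ v.1 + v.2 = i + 1 ∧ 1 ≤ u.1 - u.2 ∧ 1 ≤ v.1 - v.2) ∨
    (v.1 + v.2 = i ∧ u.1 + u.2 = i + 1 ∧ 1 ≤ v.1 - v.2 ∧ 1 ≤ u.1 - u.2) := by
  constructor
  · rintro ⟨a, b, h, h1, h2, h3, h4⟩
    rw [Sym2.eq_iff] at h
    rcases h with ⟨rfl, rfl⟩ | ⟨rfl, rfl⟩
    · exact Or.inl ⟨h1, h2, h3, h4⟩
    · exact Or.inr ⟨h1, h2, h3, h4⟩
  · rintro (⟨h1, h2, h3, h4⟩ | ⟨h1, h2, h3, h4⟩)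
    · exact ⟨u, v, rfl, h1, h2, h3, h4⟩
    · exact ⟨v, u, Sym2.eq_swap, h1, h2, h3, h4⟩

open Classical in
/-- the edges of the slit strip `0 ≤ u ≤ L`, `|w| ≤ M` -/
noncomputable def slitE (L i M : ℤ) : Finset (Sym2 (ℤ × ℤ)) :=
  (edgesIn (dstrip L M)).filter (fun e => ¬ Cut i e)

/-- the crossing probability of the truncated slit strip -/
noncomputable def pSlit (L i M : ℤ) : ℝ := P (slitE L i M) (Cr L i)

lemma cr_mono {L i : ℤ} {ω ω' : Finset (Sym2 (ℤ × ℤ))} (h : ω ⊆ ω') (hc : Cr L i ω) : Cr L i ω' := by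
  obtain ⟨z, z', h1, h2, h3, h4⟩ := hc
  exact ⟨z, z', h1, h2, h3, joined_mono h h4⟩

open Classical in
/-- the same probability in terms of percolation in the strip, the edges across the slit being removed -/
theorem pSlit_eq_perc (L i M : ℤ) :
    pSlit L i M = perc half (dstrip L M) (fun ω => Cr L i (ω.filter (fun e => ¬ Cut i e))) := by
  refine Eq.trans ?_ (perc_half_eq (dstrip L M)
    (fun ω => Cr L i (ω.filter (fun e => ¬ Cut i e)))).symm
  have hsub : slitE L i M ⊆ edgesIn (dstrip L M) := filter_subset _ _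
  have hD : Dep (slitE L i M) (fun ω : Finset (Sym2 (ℤ × ℤ)) => Cr L i (ω ∩ slitE L i M)) := by
    intro S
    simp only
    rw [inter_assoc, inter_self]
  have h1 := P_restrict hsub hD
  have h2 : P (edgesIn (dstrip L M)) (fun ω => Cr L i (ω.filter (fun e => ¬ Cut i e))) =
      P (edgesIn (dstrip L M)) (fun ω => Cr L i (ω ∩ slitE L i M)) := by
    apply P_congr
    intro S hS
    have e : S.filter (fun e => ¬ Cut i e) = S ∩ slitE L i M := by
      ext x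
      rw [mem_filter, mem_inter]
      unfold slitE
      rw [mem_filter]
      exact ⟨fun h => ⟨h.1, hS h.1, h.2⟩, fun h => ⟨h.1, h.2.2⟩⟩
    rw [e]
  refine Eq.trans ?_ (h2.trans h1).symm
  unfold pSlit
  apply P_congr
  intro S hS
  rw [inter_eq_left.2 hS]

open Classical in
lemma pSlit_mono {L i M M' : ℤ} (h : M ≤ M') : pSlit L i M ≤ pSlit L i M' := by
  have hsub : slitE L i M ⊆ slitE L i M' := by
    intro e he
    unfold slitE at he ⊢
    rw [mem_filter] at he ⊢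
    refine ⟨edgesIn_mono ?_ he.1, he.2⟩
    intro z hz
    rw [mem_dstrip] at hz ⊢
    exact ⟨hz.1, hz.2.1, hz.2.2.trans h⟩
  have hD : Dep (slitE L i M) (fun ω : Finset (Sym2 (ℤ × ℤ)) => Cr L i (ω ∩ slitE L i M)) := by
    intro S
    simp only
    rw [inter_assoc, inter_self]
  have h1 := P_restrict hsub hD
  unfold pSlit
  calc P (slitE L i M) (Cr L i) = P (slitE L i M) (fun ω => Cr L i (ω ∩ slitE L i M)) := by
        apply P_congr
        intro S hS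
        rw [inter_eq_left.2 hS]
    _ = _ := h1.symm
    _ ≤ _ := by
        apply P_mono
        intro S _ hc
        exact cr_mono inter_subset_left hc

/-! ### decomposition of the edge set -/

lemma adj_sum {u v : ℤ × ℤ} (h : lattice.Adj u v) :
    v.1 + v.2 = u.1 + u.2 + 1 ∨ v.1 + v.2 = u.1 + u.2 - 1 := by
  rcases adj_cases h with h | h | h | h <;> rw [h] <;> simp only <;> omega

lemma mem_right {n1 n2 : ℕ} {b : ℤ} {u v : ℤ × ℤ} :
    s(u, v) ∈ (edgesIn (reg n2 1 b)).map (emb (sh n1)) ↔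
      (2 * (n1 : ℤ) + 2 ≤ u.1 + u.2 ∧ u.1 + u.2 ≤ 2 * ((n1 + n2 + 1 : ℕ) : ℤ) + 1 ∧ 1 ≤ u.1 - u.2 ∧
        u.1 - u.2 ≤ b) ∧
      (2 * (n1 : ℤ) + 2 ≤ v.1 + v.2 ∧ v.1 + v.2 ≤ 2 * ((n1 + n2 + 1 : ℕ) : ℤ) + 1 ∧ 1 ≤ v.1 - v.2 ∧
        v.1 - v.2 ≤ b) ∧ lattice.Adj u v := by
  rw [← edgesIn_map (sh_iso n1), mem_edgesIn, mem_map_equiv, mem_map_equiv, mem_reg, mem_reg,
    sh_symm_apply, sh_symm_apply]
  simp only
  constructor
  · rintro ⟨h1, h2, h3⟩
    refine ⟨?_, ?_, h3⟩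
    · push_cast
      omega
    · push_cast
      omega
  · rintro ⟨h1, h2, h3⟩
    push_cast at h1 h2
    exact ⟨by omega, by omega, h3⟩

theorem slitE_eq (n1 n2 N : ℕ) :
    slitE (2 * ((n1 + n2 + 1 : ℕ) : ℤ) + 1) (2 * n1 + 1) (2 * N + 1) =
      edgesIn (reg (n1 + n2 + 1) (-(2 * N + 1)) 1) ∪ edgesIn (reg n1 1 (2 * N + 1)) ∪
        (edgesIn (reg n2 1 (2 * N + 1))).map (emb (sh n1)) := by
  classical
  ext e
  induction e using Sym2.ind with
  | _ u v =>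
    unfold slitE
    rw [mem_filter, mem_union, mem_union, mem_right, mem_edgesIn, mem_edgesIn, mem_edgesIn, mem_dstrip,
      mem_dstrip, mem_reg, mem_reg, mem_reg, mem_reg, cut_mk, abs_le, abs_le]
    push_cast
    constructor
    · rintro ⟨⟨h1, h2, h3⟩, h4⟩
      have h5 := adj_level h3
      have h6 := adj_sum h3
      by_cases hc : u.1 - u.2 ≤ 1 ∧ v.1 - v.2 ≤ 1
      · left; left
        exact ⟨by omega, by omega, h3⟩
      · by_cases hd : u.1 + u.2 ≤ 2 * n1 + 1 ∧ v.1 + v.2 ≤ 2 * n1 + 1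
        · left; right
          exact ⟨by omega, by omega, h3⟩
        · right
          exact ⟨by omega, by omega, h3⟩
    · rintro ((⟨h1, h2, h3⟩ | ⟨h1, h2, h3⟩) | ⟨h1, h2, h3⟩)
      · have h5 := adj_level h3
        exact ⟨⟨by omega, by omega, h3⟩, by omega⟩
      · exact ⟨⟨by omega, by omega, h3⟩, by omega⟩
      · exact ⟨⟨by omega, by omega, h3⟩, by omega⟩

lemma disj_low (n1 n2 : ℕ) (a b : ℤ) :
    Disjoint (edgesIn (reg (n1 + n2 + 1) a 1)) (edgesIn (reg n1 1 b)) := by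
  rw [Finset.disjoint_left]
  intro e
  induction e using Sym2.ind with
  | _ u v =>
    rw [mem_edgesIn, mem_edgesIn, mem_reg, mem_reg, mem_reg, mem_reg]
    rintro ⟨h1, h2, h3⟩ ⟨h4, h5, _⟩
    have := adj_level h3
    omega

lemma disj_right (n1 n2 : ℕ) (a b : ℤ) :
    Disjoint (edgesIn (reg (n1 + n2 + 1) a 1) ∪ edgesIn (reg n1 1 b))
      ((edgesIn (reg n2 1 b)).map (emb (sh n1))) := by
  rw [Finset.disjoint_left]
  intro e
  induction e using Sym2.ind with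
  | _ u v =>
    rw [mem_union, mem_right, mem_edgesIn, mem_edgesIn, mem_reg, mem_reg, mem_reg, mem_reg]
    rintro (⟨h1, h2, h3⟩ | ⟨h1, h2, h3⟩) ⟨h4, h5, _⟩
    · have := adj_level h3
      omega
    · omega

/-! ### the probability in terms of the laws -/

lemma sum_powerset_map {E E' : Type*} (F : Finset E) (φ : E ↪ E') (g : Finset E' → ℝ) :
    ∑ S ∈ (F.map φ).powerset, g S = ∑ S ∈ F.powerset, g (S.map φ) := by
  symm
  apply Finset.sum_bij (i := fun S _ => S.map φ)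
  · intro S h
    rw [mem_powerset] at h ⊢
    exact Finset.map_subset_map.2 h
  · intro S _ T _ h
    exact Finset.map_injective φ h
  · intro T h
    rw [mem_powerset] at h
    obtain ⟨S, hS, rfl⟩ := Finset.subset_map_iff.1 h
    exact ⟨S, mem_powerset.2 hS, rfl⟩
  · intro S _
    rfl

theorem pSlit_law (n1 n2 N : ℕ) :
    pSlit (2 * ((n1 + n2 + 1 : ℕ) : ℤ) + 1) (2 * n1 + 1) (2 * N + 1) =
      IP.Slit.tri n1 n2 (law (2 * n1 + 1) (edgesIn (reg n1 1 (2 * N + 1))) (fr n1 0))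
        (law (2 * n2 + 1) (edgesIn (reg n2 1 (2 * N + 1))) (fr n2 0))
        (law (2 * ((n1 + n2 + 1 : ℕ) : ℤ) + 1) (edgesIn (reg (n1 + n2 + 1) (-(2 * N + 1)) 1))
          (fr (n1 + n2 + 1) 0)) := by
  classical
  set F0 := edgesIn (reg (n1 + n2 + 1) (-(2 * N + 1)) 1) with hF0
  set F1 := edgesIn (reg n1 1 (2 * N + 1)) with hF1
  set F2 := edgesIn (reg n2 1 (2 * N + 1)) with hF2
  have d1 : Disjoint F0 F1 := disj_low n1 n2 _ _
  have d2 : Disjoint (F0 ∪ F1) (F2.map (emb (sh n1))) := disj_right n1 n2 _ _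
  have e1 : pSlit (2 * ((n1 + n2 + 1 : ℕ) : ℤ) + 1) (2 * n1 + 1) (2 * N + 1) =
      ∑ ω0 ∈ F0.powerset, ∑ ω1 ∈ F1.powerset, ∑ ω2 ∈ F2.powerset,
        (1 / 2 : ℝ) ^ #F1 * (1 / 2) ^ #F2 * (1 / 2) ^ #F0 *
          IP.Slit.cf n1 n2 (st (2 * n1 + 1) (fr n1 0) ω1) (st (2 * n2 + 1) (fr n2 0) ω2)
            (st (2 * ((n1 + n2 + 1 : ℕ) : ℤ) + 1) (fr (n1 + n2 + 1) 0) ω0) := by
    unfold pSlit P
    rw [slitE_eq, ← hF0, ← hF1, ← hF2, card_filter, Nat.cast_sum]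
    simp only [Nat.cast_ite, Nat.cast_one, Nat.cast_zero]
    rw [sum_powerset_union d2, sum_powerset_union d1, card_union_of_disjoint d2,
      card_union_of_disjoint d1, card_map, sum_div]
    refine sum_congr rfl fun ω0 h0 => ?_
    rw [sum_div]
    refine sum_congr rfl fun ω1 h1 => ?_
    rw [sum_powerset_map, sum_div]
    refine sum_congr rfl fun ω2 h2 => ?_
    rw [mem_powerset] at h0 h1 h2
    have h := cr_iff_cross n1 n2 h0 h1 h2
    unfold IP.Slit.cf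
    by_cases hc : IP.Slit.cross n1 n2 (st (2 * n1 + 1) (fr n1 0) ω1) (st (2 * n2 + 1) (fr n2 0) ω2)
        (st (2 * ((n1 + n2 + 1 : ℕ) : ℤ) + 1) (fr (n1 + n2 + 1) 0) ω0)
    · have h' := h.2 hc
      rw [if_pos hc, if_pos h', pow_add, pow_add]
      simp only [one_div, inv_pow]
      field_simp
    · have h' := fun g => hc (h.1 g)
      rw [if_neg hc, if_neg h', zero_div, mul_zero]
  rw [e1]
  unfold law
  rw [IP.Slit.tri_sums, sum_comm]
  refine sum_congr rfl fun ω1 _ => ?_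
  rw [sum_comm]

/-- the probability of the truncated slit strip in terms of the transfer matrices -/
theorem pSlit_T (n1 n2 N : ℕ) :
    pSlit (2 * ((n1 + n2 + 1 : ℕ) : ℤ) + 1) (2 * n1 + 1) (2 * N + 1) =
      IP.Slit.tri n1 n2 (((IP.T n1 0) ^ N) (Finsupp.single (IP.bot n1) 1))
        (((IP.T n2 0) ^ N) (Finsupp.single (IP.bot n2) 1))
        (((IP.T (n1 + n2 + 1) 0) ^ (N + 1)) (Finsupp.single (IP.bot (n1 + n2 + 1)) 1)) := by
  have e2 : ∀ n : ℕ, law (2 * n + 1) (edgesIn (reg n 1 (2 * N + 1))) (fr n 0) =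
      ((IP.T n 0) ^ N) (Finsupp.single (IP.bot n) 1) := by
    intro n
    rw [law_reflect, ← zb_eq, T_zb]
    have h2 := law_strip n (-(N : ℕ)) N
    have a3 : 2 * (-((N : ℕ) : ℤ)) + 1 = 2 - (2 * N + 1) := by ring
    have a4 : -((N : ℕ) : ℤ) + ((N : ℕ) : ℤ) = 0 := by ring
    rw [a3, a4] at h2
    simp only [mul_zero, zero_add] at h2
    rw [h2]
  have e1 : ∀ n : ℕ, law (2 * n + 1) (edgesIn (reg n (-(2 * N + 1)) 1)) (fr n 0) =
      ((IP.T n 0) ^ (N + 1)) (Finsupp.single (IP.bot n) 1) := by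
    intro n
    rw [← zb_eq, T_zb]
    have h1 := law_strip n (-(N + 1 : ℕ)) (N + 1)
    have a1 : 2 * (-(((N + 1 : ℕ)) : ℤ)) + 1 = -(2 * N + 1) := by push_cast; ring
    have a2 : -(((N + 1 : ℕ)) : ℤ) + ((N + 1 : ℕ) : ℤ) = 0 := by ring
    rw [a1, a2] at h1
    simp only [mul_zero, zero_add] at h1
    rw [h1]
  rw [pSlit_law, e2 n1, e2 n2, e1 (n1 + n2 + 1)]

/-- **The crossing probability of the infinite slit strip** (`L = 2 (n1+n2+1) + 1`, slit after the line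
`u = 2 n1 + 1`) is the trilinear form of the three stationary vectors. -/
theorem pSlit_tendsto (n1 n2 : ℕ) :
    Tendsto (fun M : ℕ => pSlit (2 * ((n1 + n2 + 1 : ℕ) : ℤ) + 1) (2 * n1 + 1) M) atTop
      (𝓝 (IP.Slit.tri n1 n2 (IP.P n1 0) (IP.P n2 0) (IP.P (n1 + n2 + 1) 0))) := by
  have h := IP.Slit.tri_T_tendsto n1 n2
  have hodd : Tendsto (fun N : ℕ => pSlit (2 * ((n1 + n2 + 1 : ℕ) : ℤ) + 1) (2 * n1 + 1)
      (2 * N + 1)) atTop (𝓝 (IP.Slit.tri n1 n2 (IP.P n1 0) (IP.P n2 0) (IP.P (n1 + n2 + 1) 0))) := by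
    refine h.congr fun N => ?_
    rw [pSlit_T]
  have hmono : Monotone (fun M : ℕ => pSlit (2 * ((n1 + n2 + 1 : ℕ) : ℤ) + 1) (2 * n1 + 1) (M : ℤ)) := by
    intro M M' hM
    exact pSlit_mono (by exact_mod_cast hM)
  have hsub : Tendsto (fun N : ℕ => 2 * N + 1) atTop atTop :=
    tendsto_atTop_mono (fun N => by simp only [id]; omega) tendsto_id
  rw [tendsto_iff_tendsto_subseq_of_monotone hmono hsub]
  refine hodd.congr fun N => ?_
  simp only [Function.comp_apply]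
  push_cast
  rfl

end H47Perc.SL
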