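import Pool.Agent.Lead.IP.Defs

/-!
SLIT STRIP: the trilinear form.

Lower half strip with `2n+1` strands, `n = n1+n2+1`: a state `σ ∈ W n` (sites `0..n-1`, wall `≥ n`).
Upper left strip with `2n1+1` strands: a state `t1 ∈ W n1`; its wall is the left side of the slit, the site
number `n1` of the lower strip.  Upper right strip with `2n2+1` strands: `t2 ∈ W n2`, its site `k` is the site
`n1+1+k` of the lower strip, its wall is the wall of the lower strip.  The strand `2n1+1` of the lower strip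
ends at the tip of the slit.
-/

namespace IP.Slit
open Finset

/-- the state of the upper left strip, as a partition of the sites of the lower strip -/
def liftL (n1 : ℕ) (t : St) : St where
  r x y := x = y ∨ (x ≤ n1 ∧ y ≤ n1 ∧ t x y)
  iseqv := by
    refine ⟨fun x => Or.inl rfl, ?_, ?_⟩
    · rintro x y (rfl | ⟨h1, h2, h3⟩)
      · exact Or.inl rfl
      · exact Or.inr ⟨h2, h1, t.symm h3⟩
    · rintro x y z (rfl | ⟨h1, h2, h3⟩) (rfl | ⟨h4, h5, h6⟩)
      · exact Or.inl rfl
      · exact Or.inr ⟨h4, h5, h6⟩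
      · exact Or.inr ⟨h1, h2, h3⟩
      · exact Or.inr ⟨h1, h5, t.trans h3 h6⟩

/-- the state of the upper right strip, as a partition of the sites of the lower strip -/
def liftR (n1 : ℕ) (t : St) : St where
  r x y := x = y ∨ (n1 < x ∧ n1 < y ∧ t (x - n1 - 1) (y - n1 - 1))
  iseqv := by
    refine ⟨fun x => Or.inl rfl, ?_, ?_⟩
    · rintro x y (rfl | ⟨h1, h2, h3⟩)
      · exact Or.inl rfl
      · exact Or.inr ⟨h2, h1, t.symm h3⟩
    · rintro x y z (rfl | ⟨h1, h2, h3⟩) (rfl | ⟨h4, h5, h6⟩)
      · exact Or.inl rfl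
      · exact Or.inr ⟨h4, h5, h6⟩
      · exact Or.inr ⟨h1, h2, h3⟩
      · exact Or.inr ⟨h1, h5, t.trans h3 h6⟩

/-- the left side of the slit is joined to the right wall -/
def cross (n1 n2 : ℕ) (t1 t2 σ : St) : Prop := (σ ⊔ liftL n1 t1 ⊔ liftR n1 t2) n1 (n1 + n2 + 1)

open Classical in
/-- the crossing indicator -/
noncomputable def cf (n1 n2 : ℕ) (t1 t2 σ : St) : ℝ := if cross n1 n2 t1 t2 σ then 1 else 0

/-- the trilinear form of the crossing event: `v1` upper left, `v2` upper right, `v` below -/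
noncomputable def tri (n1 n2 : ℕ) (v1 v2 v : M) : ℝ :=
  v1.sum fun t1 x1 => v2.sum fun t2 x2 => v.sum fun σ x => x1 * x2 * x * cf n1 n2 t1 t2 σ

end IP.Slit
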